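import Pool.Agent.TH144.CN.Ent

/-! No nonconstant entire curves in the members of the pencil. -/

set_option autoImplicit false

open Filter Topology Metric Set

namespace Pool.Agent.TH144.CN

/-- the special member of the pencil -/
def Af (x : Fin 3 → ℂ) : ℂ := x 0 ^ 240 * x 2 ^ 16 + x 1 ^ 256 + x 0 ^ 16 * x 1 ^ 240

/-- the other generator of the pencil -/
def Gf (γ : ℂ) (x : Fin 3 → ℂ) : ℂ := x 0 ^ 256 + x 1 ^ 256 + γ * x 2 ^ 256

/-- exponents of the 16-th roots of the five terms -/
def ex : Fin 5 → Fin 3 → ℕ := ![![15, 0, 1], ![0, 16, 0], ![1, 15, 0], ![16, 0, 0], ![0, 0, 16]]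

theorem no_gm {c0 c1 γ x y z : ℂ} (hγ : γ ≠ 0) (hc : c0 ≠ 0 ∨ c1 ≠ 0) {p q r : ℤ}
    (key : ∀ v : ℤ, (if 15 * p + r = v then c0 * (x ^ 15 * z) ^ 16 else 0) +
      (if 16 * q = v then (c0 + c1) * (y ^ 16) ^ 16 else 0) +
      (if p + 15 * q = v then c0 * (x * y ^ 15) ^ 16 else 0) +
      (if 16 * p = v then c1 * (x ^ 16) ^ 16 else 0) +
      (if 16 * r = v then c1 * γ * (z ^ 16) ^ 16 else 0) = 0) :
    ¬ ((x ≠ 0 ∧ y ≠ 0 ∧ p ≠ q) ∨ (x ≠ 0 ∧ z ≠ 0 ∧ p ≠ r) ∨ (y ≠ 0 ∧ z ≠ 0 ∧ q ≠ r)) := by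
  intro H
  by_cases hx : x = 0
  · -- only `y`, `z`
    subst hx
    have hyz : y ≠ 0 ∧ z ≠ 0 ∧ q ≠ r := by
      rcases H with H | H | H
      · exact absurd rfl H.1
      · exact absurd rfl H.1
      · exact H
    obtain ⟨hy, hz, hqr⟩ := hyz
    have h1 : (c0 + c1) * (y ^ 16) ^ 16 = 0 := by
      have h := key (16 * q)
      rw [if_pos rfl, if_neg (show ¬ 16 * r = 16 * q by omega)] at h
      simpa using h
    have h2 : c1 * γ * (z ^ 16) ^ 16 = 0 := by
      have h := key (16 * r)
      rw [if_pos (show 16 * r = 16 * r from rfl), if_neg (show ¬ 16 * q = 16 * r by omega)] at h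
      simpa using h
    have h3 : c0 + c1 = 0 := (mul_eq_zero.1 h1).resolve_right (pow_ne_zero _ (pow_ne_zero _ hy))
    have h4 : c1 * γ = 0 := (mul_eq_zero.1 h2).resolve_right (pow_ne_zero _ (pow_ne_zero _ hz))
    have h5 : c1 = 0 := (mul_eq_zero.1 h4).resolve_right hγ
    rw [h5, add_zero] at h3
    exact hc.elim (fun h => h h3) (fun h => h h5)
  by_cases hy : y = 0
  · subst hy
    have hxz : z ≠ 0 ∧ p ≠ r := by
      rcases H with H | H | H
      · exact absurd rfl H.2.1
      · exact H.2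
      · exact absurd rfl H.1
    obtain ⟨hz, hpr⟩ := hxz
    have h1 : c0 * (x ^ 15 * z) ^ 16 = 0 := by
      have h := key (15 * p + r)
      rw [if_pos rfl, if_neg (show ¬ 16 * p = 15 * p + r by omega),
        if_neg (show ¬ 16 * r = 15 * p + r by omega)] at h
      simpa using h
    have h2 : c1 * (x ^ 16) ^ 16 = 0 := by
      have h := key (16 * p)
      rw [if_neg (show ¬ 15 * p + r = 16 * p by omega), if_pos (show 16 * p = 16 * p from rfl),
        if_neg (show ¬ 16 * r = 16 * p by omega)] at h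
      simpa using h
    have h3 : c0 = 0 := (mul_eq_zero.1 h1).resolve_right
      (pow_ne_zero _ (mul_ne_zero (pow_ne_zero _ hx) hz))
    have h4 : c1 = 0 := (mul_eq_zero.1 h2).resolve_right (pow_ne_zero _ (pow_ne_zero _ hx))
    exact hc.elim (fun h => h h3) (fun h => h h4)
  by_cases hz : z = 0
  · subst hz
    have hxy : p ≠ q := by
      rcases H with H | H | H
      · exact H.2.2
      · exact absurd rfl H.2.1
      · exact absurd rfl H.2.1
    have h1 : c0 * (x * y ^ 15) ^ 16 = 0 := by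
      have h := key (p + 15 * q)
      rw [if_neg (show ¬ 16 * q = p + 15 * q by omega), if_pos (show p + 15 * q = p + 15 * q from rfl),
        if_neg (show ¬ 16 * p = p + 15 * q by omega)] at h
      simpa using h
    have h2 : c1 * (x ^ 16) ^ 16 = 0 := by
      have h := key (16 * p)
      rw [if_neg (show ¬ 16 * q = 16 * p by omega), if_neg (show ¬ p + 15 * q = 16 * p by omega),
        if_pos (show 16 * p = 16 * p from rfl)] at h
      simpa using h
    have h3 : c0 = 0 := (mul_eq_zero.1 h1).resolve_right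
      (pow_ne_zero _ (mul_ne_zero hx (pow_ne_zero _ hy)))
    have h4 : c1 = 0 := (mul_eq_zero.1 h2).resolve_right (pow_ne_zero _ (pow_ne_zero _ hx))
    exact hc.elim (fun h => h h3) (fun h => h h4)
  -- all coordinates nonzero
  have hpqr : ¬ (p = q ∧ q = r) := by
    rintro ⟨h1, h2⟩
    rcases H with H | H | H
    · exact H.2.2 h1
    · exact H.2.2 (h1.trans h2)
    · exact H.2.2 h2
  have nU : (x ^ 15 * z) ^ 16 ≠ 0 := pow_ne_zero _ (mul_ne_zero (pow_ne_zero _ hx) hz)
  have nV : (y ^ 16) ^ 16 ≠ 0 := pow_ne_zero _ (pow_ne_zero _ hy)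
  have nW : (x * y ^ 15) ^ 16 ≠ 0 := pow_ne_zero _ (mul_ne_zero hx (pow_ne_zero _ hy))
  have nX : (x ^ 16) ^ 16 ≠ 0 := pow_ne_zero _ (pow_ne_zero _ hx)
  have nZ : (z ^ 16) ^ 16 ≠ 0 := pow_ne_zero _ (pow_ne_zero _ hz)
  -- the case `c1 = 0`
  have hc1 : c1 ≠ 0 := by
    rintro rfl
    have hc0 : c0 ≠ 0 := hc.elim id (fun h => absurd rfl h)
    by_cases h1 : 15 * p + r = 16 * q
    · have h2 : p ≠ q := by
        rintro rfl
        apply hpqr
        constructor
        · rfl
        · omega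
      have h := key (p + 15 * q)
      rw [if_neg (show ¬ 15 * p + r = p + 15 * q by omega),
        if_neg (show ¬ 16 * q = p + 15 * q by omega),
        if_pos (show p + 15 * q = p + 15 * q from rfl)] at h
      simp only [zero_mul, ite_self, add_zero, zero_add] at h
      exact (mul_ne_zero hc0 nW) h
    · by_cases h2 : p = q
      · have h := key (15 * p + r)
        rw [if_pos rfl, if_neg (show ¬ 16 * q = 15 * p + r by omega),
          if_neg (show ¬ p + 15 * q = 15 * p + r by omega)] at h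
        simp only [zero_mul, ite_self, add_zero] at h
        exact (mul_ne_zero hc0 nU) h
      · have h := key (16 * q)
        rw [if_neg (show ¬ 15 * p + r = 16 * q from h1), if_pos rfl,
          if_neg (show ¬ p + 15 * q = 16 * q by omega)] at h
        simp only [zero_mul, ite_self, add_zero, zero_add] at h
        exact (mul_ne_zero hc0 nV) h
  -- `p` and `r` are not strictly extreme
  have hp : ¬ ((p < q ∧ p < r) ∨ (q < p ∧ r < p)) := by
    intro hcon
    have h := key (16 * p)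
    rw [if_neg (show ¬ 15 * p + r = 16 * p by omega), if_neg (show ¬ 16 * q = 16 * p by omega),
      if_neg (show ¬ p + 15 * q = 16 * p by omega), if_pos (show 16 * p = 16 * p from rfl),
      if_neg (show ¬ 16 * r = 16 * p by omega)] at h
    simp only [add_zero, zero_add] at h
    exact (mul_ne_zero hc1 nX) h
  have hr : ¬ ((r < p ∧ r < q) ∨ (p < r ∧ q < r)) := by
    intro hcon
    have h := key (16 * r)
    rw [if_neg (show ¬ 15 * p + r = 16 * r by omega), if_neg (show ¬ 16 * q = 16 * r by omega),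
      if_neg (show ¬ p + 15 * q = 16 * r by omega), if_neg (show ¬ 16 * p = 16 * r by omega),
      if_pos (show 16 * r = 16 * r from rfl)] at h
    simp only [zero_add] at h
    exact (mul_ne_zero (mul_ne_zero hc1 hγ) nZ) h
  -- hence `q` is strictly extreme
  have hq : (q < p ∧ q < r) ∨ (p < q ∧ r < q) := by omega
  have hpr : p = r := by omega
  have h := key (p + 15 * q)
  rw [if_neg (show ¬ 15 * p + r = p + 15 * q by omega),
    if_neg (show ¬ 16 * q = p + 15 * q by omega),
    if_pos (show p + 15 * q = p + 15 * q from rfl), if_neg (show ¬ 16 * p = p + 15 * q by omega),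
    if_neg (show ¬ 16 * r = p + 15 * q by omega)] at h
  simp only [add_zero, zero_add] at h
  have hc0 : c0 = 0 := (mul_eq_zero.1 h).resolve_right nW
  have h := key (16 * q)
  rw [if_neg (show ¬ 15 * p + r = 16 * q by omega), if_pos rfl,
    if_neg (show ¬ p + 15 * q = 16 * q by omega), if_neg (show ¬ 16 * p = 16 * q by omega),
    if_neg (show ¬ 16 * r = 16 * q by omega)] at h
  simp only [add_zero, zero_add, hc0] at h
  exact (mul_ne_zero hc1 nV) h

/-- no nonconstant entire curves in the members of the pencil -/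
theorem pencil {γ : ℂ} (hγ : γ ≠ 0) {c0 c1 : ℂ} (hc : c0 ≠ 0 ∨ c1 ≠ 0)
    (F : ℂ → Fin 3 → ℂ) (hF : Differentiable ℂ F) (h : ∀ z, c0 * Af (F z) + c1 * Gf γ (F z) = 0) :
    ∀ j k z, F z j * deriv (fun z => F z k) z - F z k * deriv (fun z => F z j) z = 0 := by
  by_contra hcon
  push Not at hcon
  obtain ⟨z0, b, j, k, hj, hk, hb, hv⟩ := curve F hF hcon (Finset.univ : Finset (Fin 5))
    ex ![c0, c0 + c1, c0, c1, c1 * γ] (N := 16) (by norm_num) (by simp) (by
      intro z
      rw [Fin.sum_univ_five]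
      simp only [Fin.prod_univ_three, ex]
      have := h z
      unfold Af Gf at this
      simp
      linear_combination this)
  have key : ∀ v : ℤ, (if 15 * b 0 + b 2 = v then c0 * (F z0 0 ^ 15 * F z0 2) ^ 16 else 0) +
      (if 16 * b 1 = v then (c0 + c1) * (F z0 1 ^ 16) ^ 16 else 0) +
      (if b 0 + 15 * b 1 = v then c0 * (F z0 0 * F z0 1 ^ 15) ^ 16 else 0) +
      (if 16 * b 0 = v then c1 * (F z0 0 ^ 16) ^ 16 else 0) +
      (if 16 * b 2 = v then c1 * γ * (F z0 2 ^ 16) ^ 16 else 0) = 0 := by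
    intro v
    have h1 := hv v
    rw [Finset.sum_filter, Fin.sum_univ_five] at h1
    simpa [Fin.sum_univ_three, Fin.prod_univ_three, ex] using h1
  refine no_gm hγ hc key ?_
  fin_cases j <;> fin_cases k <;> simp only [Fin.zero_eta, Fin.mk_one, Fin.reduceFinMk, Fin.isValue]
    at hj hk hb
  · exact absurd rfl hb
  · exact Or.inl ⟨hj, hk, hb⟩
  · exact Or.inr (Or.inl ⟨hj, hk, hb⟩)
  · exact Or.inl ⟨hk, hj, hb.symm⟩
  · exact absurd rfl hb
  · exact Or.inr (Or.inr ⟨hj, hk, hb⟩)
  · exact Or.inr (Or.inl ⟨hk, hj, hb.symm⟩)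
  · exact Or.inr (Or.inr ⟨hk, hj, hb.symm⟩)
  · exact absurd rfl hb

end Pool.Agent.TH144.CN
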