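import Pool.Agent.TH144.CN.Phi
import Pool.Agent.TH182.J242

/-! Entire homogeneous coordinates of a projectively holomorphic map on the plane. -/

set_option autoImplicit false

open Filter Topology Metric Set

namespace Pool.Agent.TH144.CN

lemma dense_diag {φ : ℂ → Mat} (h : HolP univ φ) {i : Fin 3} (hi : φ 0 i i ≠ 0) :
    Dense {z | φ z i i ≠ 0} := by
  set T := interior {w | φ w i i = 0} with hT
  have hclosed : IsClosed T := by
    rw [← closure_subset_iff_isClosed]
    intro z hz
    obtain ⟨V, F, hV, hzV, hd, hF⟩ := h z (mem_univ z)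
    obtain ⟨r, hr, hrV⟩ := Metric.isOpen_iff.1 hV z hzV
    have hdB : DifferentiableOn ℂ (fun w => F w i) (ball z r) := by
      have := hd.mono hrV
      rw [differentiableOn_pi] at this
      exact this i
    have hA : AnalyticOnNhd ℂ (fun w => F w i) (ball z r) := hdB.analyticOnNhd isOpen_ball
    obtain ⟨w, hwB, hwT⟩ := _root_.mem_closure_iff.1 hz (ball z r) isOpen_ball (mem_ball_self hr)
    have hz0 : ∀ w ∈ ball z r, (φ w i i = 0 ↔ F w i = 0) := by
      intro w hw
      rw [(hF w (hrV hw)).2]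
      exact not_iff_not.1 (Phi_diag_ne (hF w (hrV hw)).1)
    have hev : (fun w => F w i) =ᶠ[𝓝 w] 0 := by
      filter_upwards [isOpen_interior.mem_nhds hwT, isOpen_ball.mem_nhds hwB] with x hx hxB
      have h3 : x ∈ {w | φ w i i = 0} := interior_subset hx
      exact (hz0 x hxB).1 h3
    have h1 := hA.eqOn_zero_of_preconnected_of_eventuallyEq_zero
      (convex_ball z r).isPreconnected hwB hev
    rw [hT, mem_interior]
    exact ⟨ball z r, fun x hx => (hz0 x hx).2 (h1 hx), isOpen_ball, mem_ball_self hr⟩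
  have hclopen : IsClopen T := ⟨hclosed, isOpen_interior⟩
  rcases isClopen_iff.1 hclopen with h1 | h1
  · have h2 : {z | φ z i i ≠ 0} = {w | φ w i i = 0}ᶜ := rfl
    rw [h2, ← interior_eq_empty_iff_dense_compl]
    exact h1
  · have : (0 : ℂ) ∈ T := by rw [h1]; exact mem_univ _
    exact absurd (interior_subset this) hi

lemma dense_ne {q : ℂ → ℂ} (hq : Differentiable ℂ q) (h : ∃ z, q z ≠ 0) : Dense {z | q z ≠ 0} := by
  have h2 : {z | q z ≠ 0} = {w | q w = 0}ᶜ := rfl
  rw [h2, ← interior_eq_empty_iff_dense_compl]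
  by_contra hcon
  obtain ⟨w, hw⟩ := Set.nonempty_iff_ne_empty.2 hcon
  have hA : AnalyticOnNhd ℂ q univ := fun z _ => hq.analyticAt z
  have hev : q =ᶠ[𝓝 w] 0 := by
    filter_upwards [isOpen_interior.mem_nhds hw] with x hx
    have h3 : x ∈ {w | q w = 0} := interior_subset hx
    exact h3
  have h1 := hA.eqOn_zero_of_preconnected_of_eventuallyEq_zero isPreconnected_univ (mem_univ w) hev
  obtain ⟨z, hz⟩ := h
  exact hz (h1 (mem_univ z))

theorem exists_lift {φ : ℂ → Mat} (h : HolP univ φ) : ∃ F : ℂ → Fin 3 → ℂ, Differentiable ℂ F ∧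
    (∃ z, F z ≠ 0) ∧ ∀ z, F z ≠ 0 → φ z = Phi (F z) := by
  obtain ⟨i, hi⟩ := PM.exists_diag (h.mem_PM (mem_univ 0))
  have hmer : ∀ j z, MeromorphicAt (fun w => chart i (φ w) j) z := by
    intro j z
    obtain ⟨V, F, hV, hzV, hd, hF⟩ := h z (mem_univ z)
    have hA : ∀ k, AnalyticAt ℂ (fun w => F w k) z := by
      intro k
      have : DifferentiableOn ℂ (fun w => F w k) V := (differentiableOn_pi.1 hd) k
      exact this.analyticAt (hV.mem_nhds hzV)
    have hm : MeromorphicAt ((fun w => F w j) / fun w => F w i) z :=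
      (hA j).meromorphicAt.div (hA i).meromorphicAt
    refine hm.congr ?_
    have hev : ∀ᶠ w in 𝓝 z, ((fun w => F w j) / fun w => F w i) w = chart i (φ w) j := by
      filter_upwards [hV.mem_nhds hzV] with w hw
      rw [Pi.div_apply]
      unfold chart
      rw [(hF w hw).2]
      by_cases h0 : F w i = 0
      · rw [h0, div_zero]
        have : Phi (F w) i i = 0 := by
          by_contra hne
          exact (Phi_diag_ne (hF w hw).1).1 hne h0
        rw [this, div_zero]
      · rw [Phi_ratio (hF w hw).1 h0]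
    exact hev.filter_mono nhdsWithin_le_nhds
  choose q p hq hp hq0 hqp using fun j => Pool.Agent.TH182.J242.exists_entire_mul _ (hmer j)
  have hana : ∀ z, φ z i i ≠ 0 → ∀ j, AnalyticAt ℂ (fun w => chart i (φ w) j) z := by
    intro z hz j
    have hopen : IsOpen {w | φ w i i ≠ 0} := by
      have hc : Continuous fun w => φ w i i := by
        rw [continuous_iff_continuousAt]
        intro w
        exact ((continuous_apply_apply i i).continuousAt).comp (h.continuousAt (mem_univ w))
      exact isOpen_ne_fun hc continuous_const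
    have hd : DifferentiableOn ℂ (fun w => chart i (φ w) j) {w | φ w i i ≠ 0} := by
      intro w hw
      have := h.diff_chart (mem_univ w) (i := i) hw
      rw [differentiableAt_pi] at this
      exact (this j).differentiableWithinAt
    exact hd.analyticAt (hopen.mem_nhds hz)
  set Q : ℂ → ℂ := fun z => ∏ j, q j z with hQ
  have hQd : Differentiable ℂ Q := by
    rw [hQ]
    exact Differentiable.fun_finsetProd (fun j _ => hq j)
  set F : ℂ → Fin 3 → ℂ := fun z j => p j z * ∏ k ∈ Finset.univ.erase j, q k z with hFdef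
  have hFd : Differentiable ℂ F := by
    rw [differentiable_pi]
    intro j
    exact (hp j).mul (Differentiable.fun_finsetProd (fun k _ => hq k))
  have hFQ : ∀ z, φ z i i ≠ 0 → F z = Q z • chart i (φ z) := by
    intro z hz
    funext j
    rw [hFdef, hQ]
    simp only [Pi.smul_apply, smul_eq_mul]
    rw [← Finset.mul_prod_erase Finset.univ (fun k => q k z) (Finset.mem_univ j),
      ← hqp j z (hana z hz j)]
    ring
  have hdenseQ : Dense {z | Q z ≠ 0} := by
    have h1 : ∀ j, Dense {z | q j z ≠ 0} := fun j => dense_ne (hq j) (hq0 j)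
    have ho : ∀ j, IsOpen {z | q j z ≠ 0} := fun j =>
      isOpen_ne_fun (hq j).continuous continuous_const
    have h2 : {z | Q z ≠ 0} = ⋂ j, {z | q j z ≠ 0} := by
      ext z
      rw [mem_iInter]
      exact Finset.prod_ne_zero_iff.trans (by simp)
    rw [h2]
    exact dense_iInter_of_isOpen ho h1
  have hgood : Dense ({z | φ z i i ≠ 0} ∩ {z | Q z ≠ 0}) :=
    (dense_diag h hi).inter_of_isOpen_right hdenseQ (isOpen_ne_fun hQd.continuous continuous_const)
  have hgoodF : ∀ z ∈ {z | φ z i i ≠ 0} ∩ {z | Q z ≠ 0}, F z ≠ 0 ∧ φ z = Phi (F z) := by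
    rintro z ⟨hz1, hz2⟩
    have hz2' : Q z ≠ 0 := hz2
    rw [hFQ z hz1]
    refine ⟨smul_ne_zero hz2' (PM.chart_ne hz1), ?_⟩
    rw [Phi_smul hz2', PM.Phi_chart (h.mem_PM (mem_univ z)) hz1]
  refine ⟨F, hFd, ?_, fun z hz => ?_⟩
  · obtain ⟨z, hz⟩ := hgood.nonempty
    exact ⟨z, (hgoodF z hz).1⟩
  · have h1 : (𝓝[({z | φ z i i ≠ 0} ∩ {z | Q z ≠ 0})] z).NeBot :=
      mem_closure_iff_nhdsWithin_neBot.1 (hgood z)
    have h2 : Tendsto φ (𝓝[({z | φ z i i ≠ 0} ∩ {z | Q z ≠ 0})] z) (𝓝 (φ z)) :=
      (h.continuousAt (mem_univ z)).tendsto.mono_left nhdsWithin_le_nhds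
    have h3 : Tendsto (fun w => Phi (F w)) (𝓝[({z | φ z i i ≠ 0} ∩ {z | Q z ≠ 0})] z)
        (𝓝 (Phi (F z))) :=
      (((continuousAt_Phi hz).comp hFd.continuous.continuousAt).tendsto).mono_left
        nhdsWithin_le_nhds
    refine tendsto_nhds_unique h2 (h3.congr' ?_)
    filter_upwards [self_mem_nhdsWithin] with w hw
    exact (hgoodF w hw).2.symm

end Pool.Agent.TH144.CN
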