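import Pool.Agent.TH144.CN.Kob
import Pool.Agent.TH144.CN.Fib
import Pool.Agent.TH144.CN.Lift

/-! The surface, and its hyperbolicity. -/

set_option autoImplicit false

open Filter Topology Metric Set
open MvPolynomial

namespace Pool.Agent.TH144.CN

/-- homogeneous coordinates on the first factor -/
noncomputable def B (i : Fin 3) : BiPoly := X (Sum.inl i)

/-- homogeneous coordinates on the second factor -/
noncomputable def Y (i : Fin 3) : BiPoly := X (Sum.inr i)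

/-- the Fermat quartic -/
noncomputable def Ep : BiPoly := B 0 ^ 4 + B 1 ^ 4 + B 2 ^ 4

/-- the special member of the pencil -/
noncomputable def Ap : BiPoly := Y 0 ^ 240 * Y 2 ^ 16 + Y 1 ^ 256 + Y 0 ^ 16 * Y 1 ^ 240

/-- the other generator of the pencil -/
noncomputable def Gp (γ : ℂ) : BiPoly := Y 0 ^ 256 + Y 1 ^ 256 + C γ * Y 2 ^ 256

/-- the pencil -/
noncomputable def Fp (γ : ℂ) : BiPoly := B 0 * Ap + C 2 * B 1 * Gp γ

lemma B_hom (i : Fin 3) : BiHom (B i) 1 0 := by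
  unfold BiHom B
  exact isWeightedHomogeneous_X ℂ _ _

lemma Y_hom (i : Fin 3) : BiHom (Y i) 0 1 := by
  unfold BiHom Y
  exact isWeightedHomogeneous_X ℂ _ _

lemma C_hom (c : ℂ) : BiHom (C c) 0 0 := by
  unfold BiHom
  exact isWeightedHomogeneous_C _ c

lemma BiHom.mul {P Q : BiPoly} {d e d' e' : ℕ} (h : BiHom P d e) (h' : BiHom Q d' e') :
    BiHom (P * Q) (d + d') (e + e') := by
  unfold BiHom at *
  exact IsWeightedHomogeneous.mul h h'

lemma BiHom.pow {P : BiPoly} {d e : ℕ} (h : BiHom P d e) (n : ℕ) :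
    BiHom (P ^ n) (n * d) (n * e) := by
  unfold BiHom at *
  have := IsWeightedHomogeneous.pow h n
  simpa [Prod.smul_mk, smul_eq_mul] using this

lemma BiHom.add {P Q : BiPoly} {d e : ℕ} (h : BiHom P d e) (h' : BiHom Q d e) :
    BiHom (P + Q) d e := by
  unfold BiHom at *
  exact IsWeightedHomogeneous.add h h'

lemma Ep_hom : BiHom Ep 4 0 := by
  unfold Ep
  exact (((B_hom 0).pow 4).add ((B_hom 1).pow 4)).add ((B_hom 2).pow 4)

lemma Ap_hom : BiHom Ap 0 256 := by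
  unfold Ap
  exact ((((Y_hom 0).pow 240).mul ((Y_hom 2).pow 16)).add ((Y_hom 1).pow 256)).add
    (((Y_hom 0).pow 16).mul ((Y_hom 1).pow 240))

lemma Gp_hom (γ : ℂ) : BiHom (Gp γ) 0 256 := by
  unfold Gp
  exact (((Y_hom 0).pow 256).add ((Y_hom 1).pow 256)).add ((C_hom γ).mul ((Y_hom 2).pow 256))

lemma Fp_hom (γ : ℂ) : BiHom (Fp γ) 1 256 := by
  unfold Fp
  exact ((B_hom 0).mul Ap_hom).add (((C_hom 2).mul (B_hom 1)).mul (Gp_hom γ))

/-- the surface -/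
noncomputable def Xs (γ : ℂ) : ClosedSet where
  eqs := {Ep, Fp γ}
  hom := by
    rintro G (rfl | rfl)
    · exact ⟨_, _, Ep_hom⟩
    · exact ⟨_, _, Fp_hom γ⟩

lemma aeval_Ep {L : Type} [Field L] [Algebra ℂ L] (b x : Fin 3 → L) :
    aeval (Sum.elim b x) Ep = b 0 ^ 4 + b 1 ^ 4 + b 2 ^ 4 := by
  simp [Ep, B]

lemma aeval_Ap {L : Type} [Field L] [Algebra ℂ L] (b x : Fin 3 → L) :
    aeval (Sum.elim b x) Ap = x 0 ^ 240 * x 2 ^ 16 + x 1 ^ 256 + x 0 ^ 16 * x 1 ^ 240 := by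
  simp [Ap, Y]

lemma aeval_Fp (γ : ℂ) (b x : Fin 3 → ℂ) :
    aeval (Sum.elim b x) (Fp γ) = b 0 * Af x + 2 * b 1 * Gf γ x := by
  simp [Fp, Ap, Gp, Y, B, Af, Gf]

lemma mem_Xs {γ : ℂ} {b x : Fin 3 → ℂ} : (Xs γ).Mem b x ↔ b ≠ 0 ∧ x ≠ 0 ∧
    b 0 ^ 4 + b 1 ^ 4 + b 2 ^ 4 = 0 ∧ b 0 * Af x + 2 * b 1 * Gf γ x = 0 := by
  unfold ClosedSet.Mem Xs
  simp only [mem_insert_iff, mem_singleton_iff, forall_eq_or_imp, forall_eq, aeval_Ep, aeval_Fp]

lemma Af_smul (t : ℂ) (x : Fin 3 → ℂ) : Af (t • x) = t ^ 256 * Af x := by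
  unfold Af
  simp only [Pi.smul_apply, smul_eq_mul]
  ring

lemma Gf_smul (γ : ℂ) (t : ℂ) (x : Fin 3 → ℂ) : Gf γ (t • x) = t ^ 256 * Gf γ x := by
  unfold Gf
  simp only [Pi.smul_apply, smul_eq_mul]
  ring

lemma Af_cont : Continuous Af := by unfold Af; fun_prop

lemma Gf_cont (γ : ℂ) : Continuous (Gf γ) := by unfold Gf; fun_prop

lemma mem_smul {γ : ℂ} {b x : Fin 3 → ℂ} (h : (Xs γ).Mem b x) {s t : ℂ} (hs : s ≠ 0) (ht : t ≠ 0) :
    (Xs γ).Mem (s • b) (t • x) := by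
  rw [mem_Xs] at h ⊢
  obtain ⟨hb, hx, h1, h2⟩ := h
  refine ⟨smul_ne_zero hs hb, smul_ne_zero ht hx, ?_, ?_⟩
  · simp only [Pi.smul_apply, smul_eq_mul]
    linear_combination s ^ 4 * h1
  · rw [Af_smul, Gf_smul]
    simp only [Pi.smul_apply, smul_eq_mul]
    linear_combination s * t ^ 256 * h2

/-- the pairs of projection matrices of the points of the surface -/
def SX (γ : ℂ) : Set (Mat × Mat) :=
  {M | ∃ b x : Fin 3 → ℂ, (Xs γ).Mem b x ∧ M = (Phi b, Phi x)}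

lemma SX_compact (γ : ℂ) : IsCompact (SX γ) := by
  set T : Set ((Fin 3 → ℂ) × (Fin 3 → ℂ)) := {p | ‖p.1‖ = 1 ∧ ‖p.2‖ = 1 ∧
    p.1 0 ^ 4 + p.1 1 ^ 4 + p.1 2 ^ 4 = 0 ∧ p.1 0 * Af p.2 + 2 * p.1 1 * Gf γ p.2 = 0} with hT
  have hTc : IsCompact T := by
    have hsub : T ⊆ closedBall (0 : Fin 3 → ℂ) 1 ×ˢ closedBall (0 : Fin 3 → ℂ) 1 := by
      rintro p ⟨h1, h2, -, -⟩
      exact ⟨mem_closedBall_zero_iff.2 h1.le, mem_closedBall_zero_iff.2 h2.le⟩
    refine ((isCompact_closedBall _ _).prod (isCompact_closedBall _ _)).of_isClosed_subset ?_ hsub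
    have hA : Continuous fun p : (Fin 3 → ℂ) × (Fin 3 → ℂ) => Af p.2 := Af_cont.comp continuous_snd
    have hG : Continuous fun p : (Fin 3 → ℂ) × (Fin 3 → ℂ) => Gf γ p.2 :=
      (Gf_cont γ).comp continuous_snd
    refine IsClosed.inter (isClosed_eq continuous_fst.norm continuous_const) ?_
    refine IsClosed.inter (isClosed_eq continuous_snd.norm continuous_const) ?_
    refine IsClosed.inter (isClosed_eq (by fun_prop) continuous_const) ?_
    exact isClosed_eq (by fun_prop) continuous_const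
  have himg : SX γ = (fun p : (Fin 3 → ℂ) × (Fin 3 → ℂ) => (Phi p.1, Phi p.2)) '' T := by
    ext M
    constructor
    · rintro ⟨b, x, h, rfl⟩
      have hb : b ≠ 0 := h.1
      have hx : x ≠ 0 := h.2.1
      have hnb : (‖b‖ : ℂ) ≠ 0 := by
        rw [Ne, Complex.ofReal_eq_zero]; exact norm_ne_zero_iff.2 hb
      have hnx : (‖x‖ : ℂ) ≠ 0 := by
        rw [Ne, Complex.ofReal_eq_zero]; exact norm_ne_zero_iff.2 hx
      have h2 := mem_smul h (inv_ne_zero hnb) (inv_ne_zero hnx)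
      refine ⟨((‖b‖ : ℂ)⁻¹ • b, (‖x‖ : ℂ)⁻¹ • x), ⟨?_, ?_, (mem_Xs.1 h2).2.2.1,
        (mem_Xs.1 h2).2.2.2⟩, ?_⟩
      · simp only [norm_smul, norm_inv, Complex.norm_real, norm_norm]
        exact inv_mul_cancel₀ (norm_ne_zero_iff.2 hb)
      · simp only [norm_smul, norm_inv, Complex.norm_real, norm_norm]
        exact inv_mul_cancel₀ (norm_ne_zero_iff.2 hx)
      · simp only [Phi_smul (inv_ne_zero hnb), Phi_smul (inv_ne_zero hnx)]
    · rintro ⟨⟨b, x⟩, ⟨h1, h2, h3, h4⟩, rfl⟩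
      refine ⟨b, x, mem_Xs.2 ⟨?_, ?_, h3, h4⟩, rfl⟩
      · rintro rfl
        simp at h1
      · rintro rfl
        simp at h2
  rw [himg]
  refine hTc.image_of_continuousOn ?_
  rintro ⟨b, x⟩ ⟨h1, h2, -, -⟩
  have hb : b ≠ 0 := by
    rintro rfl
    simp at h1
  have hx : x ≠ 0 := by
    rintro rfl
    simp at h2
  apply ContinuousAt.continuousWithinAt
  have e1 : ContinuousAt (fun p : (Fin 3 → ℂ) × (Fin 3 → ℂ) => Phi p.1) (b, x) :=
    ContinuousAt.comp (g := Phi) (f := Prod.fst) (continuousAt_Phi hb) continuous_fst.continuousAt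
  have e2 : ContinuousAt (fun p : (Fin 3 → ℂ) × (Fin 3 → ℂ) => Phi p.2) (b, x) :=
    ContinuousAt.comp (g := Phi) (f := Prod.snd) (continuousAt_Phi hx) continuous_snd.continuousAt
  exact e1.prodMk e2

lemma SX_PM (γ : ℂ) : SX γ ⊆ PM ×ˢ PM := by
  rintro M ⟨b, x, h, rfl⟩
  exact ⟨⟨b, h.1, rfl⟩, ⟨x, h.2.1, rfl⟩⟩

/-- an entire projectively holomorphic map with a lift of constant direction is constant -/
lemma const_of_lift {φ : ℂ → Mat} (h : HolP univ φ) {F : ℂ → Fin 3 → ℂ} (hF : Differentiable ℂ F)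
    (h0 : ∃ z, F z ≠ 0) (hφ : ∀ z, F z ≠ 0 → φ z = Phi (F z))
    (hw : ∀ j k z, F z j * deriv (fun z => F z k) z - F z k * deriv (fun z => F z j) z = 0) :
    ∀ z, φ z = φ 0 := by
  obtain ⟨a, ha, hg⟩ := const_dir F hF h0 hw
  have hd : Dense {z | F z ≠ 0} := by
    obtain ⟨z, hz⟩ := h0
    obtain ⟨k, hk⟩ := Function.ne_iff.1 hz
    have h1 : Dense {z | F z k ≠ 0} := dense_ne (differentiable_pi.1 hF k) ⟨z, hk⟩
    refine h1.mono fun w hw => ?_
    have hw' : F w k ≠ 0 := hw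
    intro h2
    exact hw' (by rw [h2]; rfl)
  have h1 : ∀ z ∈ {z | F z ≠ 0}, φ z = Phi a := by
    intro z hz
    rw [hφ z hz]
    obtain ⟨g, hg⟩ := hg z
    rw [hg]
    apply Phi_smul
    rintro rfl
    exact hz (by rw [hg, zero_smul])
  have hc : Continuous φ := by
    rw [continuous_iff_continuousAt]
    exact fun z => h.continuousAt (mem_univ z)
  have h2 : ∀ z, φ z = Phi a := by
    intro z
    have := (isClosed_eq hc continuous_const).closure_subset_iff.2 h1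
    exact this (hd z)
  intro z
  rw [h2, h2]

/-- the surface contains no nonconstant entire curve -/
theorem no_entire {γ : ℂ} (hγ : γ ≠ 0) (Ψ : ℂ → Mat × Mat) (hΨ : HolP2 univ Ψ)
    (hS : ∀ z, Ψ z ∈ SX γ) : ∀ z, Ψ z = Ψ 0 := by
  obtain ⟨Fb, hFb, hFb0, hFbφ⟩ := exists_lift hΨ.1
  obtain ⟨Fx, hFx, hFx0, hFxφ⟩ := exists_lift hΨ.2
  -- the map to the base is constant
  have hbase : ∀ z, (Ψ z).1 = (Ψ 0).1 := by
    refine const_of_lift hΨ.1 hFb hFb0 hFbφ (fermat4 Fb hFb fun z => ?_)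
    by_cases hz : Fb z = 0
    · rw [hz]; simp
    · obtain ⟨b, x, hbx, e⟩ := hS z
      have h1 : Phi b = Phi (Fb z) := by
        rw [← hFbφ z hz, e]
      obtain ⟨c, hc, hcb⟩ := Phi_inj hbx.1 hz h1
      rw [hcb]
      simp only [Pi.smul_apply, smul_eq_mul]
      linear_combination c ^ 4 * (mem_Xs.1 hbx).2.2.1
  obtain ⟨β, x0, hβ, eβ⟩ := hS 0
  have hfib : ∀ z, (Ψ z).2 = (Ψ 0).2 := by
    have hβ0 : β 0 ≠ 0 ∨ 2 * β 1 ≠ 0 := by
      by_contra hcon
      push Not at hcon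
      obtain ⟨h0, h1⟩ := hcon
      have h1' : β 1 = 0 := by simpa using h1
      have h2 := (mem_Xs.1 hβ).2.2.1
      rw [h0, h1'] at h2
      have h3 : β 2 = 0 := by simpa using h2
      apply hβ.1
      funext i
      fin_cases i
      · exact h0
      · exact h1'
      · exact h3
    refine const_of_lift hΨ.2 hFx hFx0 hFxφ (pencil hγ hβ0 Fx hFx fun z => ?_)
    by_cases hz : Fx z = 0
    · rw [hz]; simp [Af, Gf]
    · obtain ⟨b, x, hbx, e⟩ := hS z
      have h1 : Phi x = Phi (Fx z) := by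
        rw [← hFxφ z hz, e]
      have h2 : Phi b = Phi β := by
        have h3 := hbase z
        rw [e, eβ] at h3
        exact h3
      obtain ⟨c, hc, hcx⟩ := Phi_inj hbx.2.1 hz h1
      obtain ⟨c', hc', hcb⟩ := Phi_inj hbx.1 hβ.1 h2
      rw [hcx, hcb, Af_smul, Gf_smul]
      simp only [Pi.smul_apply, smul_eq_mul]
      linear_combination c' * c ^ 256 * (mem_Xs.1 hbx).2.2.2
  intro z
  exact Prod.ext (hbase z) (hfib z)

/-- the surface is Kobayashi hyperbolic -/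
theorem Xs_hyperbolic {γ : ℂ} (hγ : γ ≠ 0) : KobayashiHyperbolic (Xs γ).points := by
  obtain ⟨C, hC, hb⟩ := brody (SX_compact γ) (SX_PM γ) (no_entire hγ)
  obtain ⟨L, hL, hlip⟩ := disc_lip (SX_compact γ) hC hb
  refine kobayashi_of_lip hL fun f hf hfS s hs t ht => ?_
  refine hlip (fun z => PhiP (f z)) hf.holP2 (fun z hz => ?_) s hs t ht
  obtain ⟨b, x, hb0, hx0, hm, e⟩ := hfS z hz
  refine ⟨b, x, hm, ?_⟩
  rw [e, PhiP_mk]

end Pool.Agent.TH144.CN
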