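import Pool.Agent.TH144.CN.Int

/-! The conormal intersection number of the special fibre. -/

set_option autoImplicit false

open FF
open Pool.Agent.W603.LV

namespace Pool.Agent.TH144.CN.I

variable {K : Type} [Field K] [Algebra ℂ K] [IsFF ℂ K]

/-- homogeneous coordinates of the generic point, second factor -/
def xi (u v : K) : Fin 3 → K := ![1, v, u * v ^ 15]

/-- homogeneous coordinates of the generic point, first factor -/
noncomputable def be (K : Type) [Field K] [Algebra ℂ K] (ζ : ℂ) : Fin 3 → K :=
  ![1, 0, algebraMap ℂ K ζ]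

lemma sInf_eq_of {S : Set ℕ} {m : ℕ} (hm : m ∈ S) (h : ∀ n ∈ S, m ≤ n) : sInf S = m :=
  le_antisymm (Nat.sInf_le hm) (h _ (Nat.sInf_mem ⟨m, hm⟩))

/-- the affine coordinates on the first factor are constants -/
lemma be_const {P : FF.Place ℂ K} {ζ : ℂ} {f : K} (hf : f ∈ affineCoords P (be K ζ)) :
    ∃ d : ℂ, f = algebraMap ℂ K d := by
  obtain ⟨i, j, -, -, rfl⟩ := hf
  have h : ∀ i, ∃ d : ℂ, be K ζ i = algebraMap ℂ K d := by
    intro i
    fin_cases i
    · exact ⟨1, by simp [be]⟩
    · exact ⟨0, by simp [be]⟩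
    · exact ⟨ζ, by simp [be]⟩
  obtain ⟨d, hd⟩ := h i
  obtain ⟨d', hd'⟩ := h j
  exact ⟨d' / d, by rw [hd, hd', map_div₀]⟩

lemma const_not_pos {P : FF.Place ℂ K} {d c : ℂ}
    (h0 : algebraMap ℂ K d - algebraMap ℂ K c ≠ 0) :
    P.ord (algebraMap ℂ K d - algebraMap ℂ K c) = 0 := by
  rw [← map_sub] at h0 ⊢
  exact P.ord_const (fun h => h0 (by rw [h, map_zero]))

section

variable {u v : K} (huv : u ^ 16 + v ^ 16 + 1 = 0) (hv : Transcendental ℂ v)

include hv in
omit [IsFF ℂ K] in
lemma v_ne : v ≠ 0 := by
  rintro rfl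
  exact hv isAlgebraic_zero

include huv hv in
omit [IsFF ℂ K] in
lemma u_ne : u ≠ 0 := by
  rintro rfl
  apply hv
  have h : v ^ 16 = algebraMap ℂ K (-1) := by
    rw [map_neg, map_one]
    linear_combination huv
  have h2 : IsAlgebraic ℂ (v ^ 16) := by
    rw [h]; exact isAlgebraic_algebraMap _
  exact h2.of_pow (by norm_num)

include huv hv in
/-- the vector field -/
lemma exists_D : ∃ D : Derivation ℂ K K, D ≠ 0 ∧ D v = -u ^ 15 ∧ D u = v ^ 15 := by
  have hD0 : der ℂ K ≠ 0 := der_ne
  have hv0 := der_ne_zero hD0 hv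
  have hu := u_ne huv hv
  set D : Derivation ℂ K K := (-u ^ 15 / der ℂ K v) • der ℂ K with hD
  have h1 : D v = -u ^ 15 := by
    rw [hD, Derivation.coe_smul, Pi.smul_apply, smul_eq_mul]
    field_simp
  have h2 : D u = v ^ 15 := by
    have h3 := congrArg D huv
    rw [map_add, map_add, map_zero, D.map_one_eq_zero, D.leibniz_pow, D.leibniz_pow, h1] at h3
    simp only [smul_eq_mul, nsmul_eq_mul] at h3
    have h4 : (16 : K) ≠ 0 := by
      have : (16 : K) = algebraMap ℂ K 16 := (map_ofNat (algebraMap ℂ K) 16).symm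
      rw [this]
      exact (map_ne_zero _).2 (by norm_num)
    have h5 : 16 * u ^ 15 * (D u - v ^ 15) = 0 := by
      push_cast at h3
      linear_combination h3
    have h6 := (mul_eq_zero.1 h5).resolve_left (mul_ne_zero h4 (pow_ne_zero _ hu))
    linear_combination h6
  refine ⟨D, ?_, h1, h2⟩
  intro h0
  rw [h0] at h1
  have : u ^ 15 = 0 := by
    have h3 : (0 : K) = -u ^ 15 := by simpa using h1
    linear_combination h3
  exact pow_ne_zero _ hu this

include huv in
omit [IsFF ℂ K] in
/-- places where `v` has a pole -/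
lemma ord_u_of_neg {P : FF.Place ℂ K} (h : P.ord v < 0) : P.ord u = P.ord v := by
  have hv0 : v ≠ 0 := by
    rintro rfl
    rw [P.ord_zero] at h; exact lt_irrefl _ h
  have h1 : P.ord (v ^ 16) < P.ord (1 : K) := by
    rw [P.ord_pow, P.ord_one]; push_cast; omega
  have h2 := (P.ord_add_eq (pow_ne_zero 16 hv0) one_ne_zero h1).2
  have h3 : u ^ 16 = -(v ^ 16 + 1) := by linear_combination huv
  have h4 : P.ord (u ^ 16) = P.ord (v ^ 16) := by rw [h3, P.ord_neg, h2]
  rw [P.ord_pow, P.ord_pow] at h4
  push_cast at h4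
  omega

include huv in
omit [IsFF ℂ K] in
lemma ord_u_of_nonneg {P : FF.Place ℂ K} (h : 0 ≤ P.ord v) : 0 ≤ P.ord u := by
  by_contra hcon
  push Not at hcon
  have := ord_u_of_neg (u := v) (v := u) (by linear_combination huv) hcon
  omega

include huv in
omit [IsFF ℂ K] in
lemma ord_v_of_pos (hv0 : v ≠ 0) (hu0 : u ≠ 0) {P : FF.Place ℂ K} (h : 0 < P.ord u) :
    P.ord v = 0 := by
  have h1 : P.ord (1 : K) < P.ord (u ^ 16) := by
    rw [P.ord_pow, P.ord_one]; push_cast; omega
  have h2 := (P.ord_add_eq one_ne_zero (pow_ne_zero 16 hu0) h1).2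
  have h3 : v ^ 16 = -(1 + u ^ 16) := by linear_combination huv
  have h4 : P.ord (v ^ 16) = 0 := by rw [h3, P.ord_neg, h2, P.ord_one]
  rw [P.ord_pow] at h4
  push_cast at h4
  omega

include huv hv in
/-- the local contribution at a pole of `v` -/
lemma contrib_pole {D : Derivation ℂ K K} (hD : D ≠ 0) (hDv : D v = -u ^ 15) (ζ : ℂ)
    {P : FF.Place ℂ K} (h : P.ord v < 0) :
    ((branchMult P (be K ζ) (xi u v) : ℤ) - 1) + vo P D = -P.ord v := by
  have hv0 := v_ne hv
  have hu0 := u_ne huv hv
  have hou := ord_u_of_neg huv h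
  have ho1 : P.ord (xi u v 0) = 0 := by
    change P.ord (1 : K) = 0
    exact P.ord_one
  have ho2 : P.ord (xi u v 1) = P.ord v := rfl
  have hn2 : xi u v 2 ≠ 0 := mul_ne_zero hu0 (pow_ne_zero _ hv0)
  have ho3 : P.ord (xi u v 2) = 16 * P.ord v := by
    change P.ord (u * v ^ 15) = _
    rw [P.ord_mul hu0 (pow_ne_zero _ hv0), P.ord_pow, hou]; push_cast; ring
  have hvo : vo P D = 1 + 14 * P.ord v := by
    have h1 := (ord_der P hD (f := v) (by omega)).2
    rw [hDv, P.ord_neg, P.ord_pow, hou] at h1
    push_cast at h1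
    omega
  have hm : branchMult P (be K ζ) (xi u v) = (-15 * P.ord v).toNat := by
    unfold branchMult
    apply sInf_eq_of
    · refine ⟨by omega, xi u v 1 / xi u v 2, Or.inr ⟨2, 1, hn2, ?_, rfl⟩, 0, ?_, ?_⟩
      · intro l hl
        fin_cases l
        · change P.ord (xi u v 2) ≤ P.ord (xi u v 0)
          omega
        · change P.ord (xi u v 2) ≤ P.ord (xi u v 1)
          omega
        · exact le_rfl
      · rw [map_zero, sub_zero]
        exact div_ne_zero hv0 hn2
      · rw [map_zero, sub_zero, P.ord_div (show xi u v 1 ≠ 0 from hv0) hn2, ho3, ho2]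
        omega
    · rintro n ⟨hn, f, hf, c, hfc, hord⟩
      rcases hf with hf | hf
      · obtain ⟨d, rfl⟩ := be_const hf
        rw [const_not_pos hfc] at hord
        omega
      · obtain ⟨i, j, hi, hmin, rfl⟩ := hf
        have hi2 := hmin 2 hn2
        have hieq : i = 2 := by
          fin_cases i
          · exfalso
            change P.ord (xi u v 0) ≤ _ at hi2
            omega
          · exfalso
            change P.ord (xi u v 1) ≤ _ at hi2
            omega
          · rfl
        subst hieq
        have key : ∀ j, xi u v j ≠ 0 → 0 < P.ord (xi u v j / xi u v 2) →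
            P.ord (xi u v j / xi u v 2 - algebraMap ℂ K c) = n →
            (n : ℤ) = P.ord (xi u v j / xi u v 2) := by
          intro j hj hpos hn'
          by_cases hc : c = 0
          · rw [hc, map_zero, sub_zero] at hn'
            exact hn'.symm
          · exfalso
            have hc' : -algebraMap ℂ K c ≠ 0 := neg_ne_zero.2 ((map_ne_zero _).2 hc)
            have h1 : P.ord (-algebraMap ℂ K c) < P.ord (xi u v j / xi u v 2) := by
              rw [P.ord_neg, P.ord_const hc]; exact hpos
            have h2 := (P.ord_add_eq hc' (div_ne_zero hj hn2) h1).2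
            rw [neg_add_eq_sub, hn', P.ord_neg, P.ord_const hc] at h2
            omega
        fin_cases j
        · have h1 : P.ord (xi u v 0 / xi u v 2) = -16 * P.ord v := by
            rw [P.ord_div (show xi u v 0 ≠ 0 from one_ne_zero) hn2, ho3, ho1]
            ring
          have h2 := key 0 one_ne_zero (by rw [h1]; omega) hord
          omega
        · have h1 : P.ord (xi u v 1 / xi u v 2) = -15 * P.ord v := by
            rw [P.ord_div (show xi u v 1 ≠ 0 from hv0) hn2, ho3, ho2]
            ring
          have h2 := key 1 hv0 (by rw [h1]; omega) hord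
          omega
        · exfalso
          have h1 : xi u v 2 / xi u v 2 = algebraMap ℂ K 1 := by
            rw [div_self hn2, map_one]
          change P.ord (xi u v 2 / xi u v 2 - algebraMap ℂ K c) = n at hord
          change xi u v 2 / xi u v 2 - algebraMap ℂ K c ≠ 0 at hfc
          rw [h1] at hord hfc
          rw [const_not_pos hfc] at hord
          omega
  rw [hm, hvo]
  omega

include huv hv in
/-- the local contribution at the other places -/
lemma contrib_reg {D : Derivation ℂ K K} (hD : D ≠ 0) (hDv : D v = -u ^ 15) (hDu : D u = v ^ 15)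
    (ζ : ℂ) {P : FF.Place ℂ K} (h : 0 ≤ P.ord v) :
    ((branchMult P (be K ζ) (xi u v) : ℤ) - 1) + vo P D = 0 := by
  have hv0 := v_ne hv
  have hu0 := u_ne huv hv
  have hou := ord_u_of_nonneg huv h
  have gv : Ge P 0 v := Or.inr h
  have gu : Ge P 0 u := Or.inr hou
  have gpow : ∀ {f : K}, Ge P 0 f → ∀ n : ℕ, Ge P 0 (f ^ n) := by
    intro f hf n
    have := hf.pow n
    rwa [mul_zero] at this
  have gmul : ∀ {f g : K}, Ge P 0 f → Ge P 0 g → Ge P 0 (f * g) := by
    intro f g hf hg
    have := hf.mul hg
    rwa [add_zero] at this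
  have hD2 : D (u * v ^ 15) = v ^ 30 - 15 * (u ^ 16 * v ^ 14) := by
    rw [D.leibniz, D.leibniz_pow, hDv, hDu]
    simp only [smul_eq_mul, nsmul_eq_mul]
    push_cast
    ring
  have gxi : ∀ j, Ge P 0 (xi u v j) := by
    intro j
    fin_cases j
    · exact Ge.one
    · exact gv
    · exact gmul gu (gpow gv 15)
  have gDxi : ∀ j, Ge P 0 (D (xi u v j)) := by
    intro j
    fin_cases j
    · change Ge P 0 (D (1 : K))
      rw [D.map_one_eq_zero]; exact Ge.zero
    · change Ge P 0 (D v)
      rw [hDv]; exact (gpow gu 15).neg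
    · change Ge P 0 (D (u * v ^ 15))
      rw [hD2]
      refine (gpow gv 30).sub (gmul ?_ (gmul (gpow gu 16) (gpow gv 14)))
      have := Ge.natCast (P := P) (K := K) 15
      exact_mod_cast this
  set S : Set ℕ := {m : ℕ | 0 < m ∧ ∃ f ∈ affineCoords P (be K ζ) ∪ affineCoords P (xi u v),
    ∃ c : ℂ, f - algebraMap ℂ K c ≠ 0 ∧ P.ord (f - algebraMap ℂ K c) = m} with hS
  have hlow : ∀ n ∈ S, 0 ≤ (n : ℤ) - 1 + vo P D := by
    rintro n ⟨hn, f, hf, c, hfc, hord⟩
    rcases hf with hf | hf
    · obtain ⟨d, rfl⟩ := be_const hf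
      rw [const_not_pos hfc] at hord
      omega
    · obtain ⟨i, j, hi, hmin, rfl⟩ := hf
      have hi0 : P.ord (xi u v i) = 0 := by
        have h1 := hmin 0 one_ne_zero
        have h2 : P.ord (xi u v 0) = 0 := P.ord_one
        have h3 := (gxi i).resolve_left hi
        omega
      have h1 := ord_der P hD (f := xi u v j / xi u v i - algebraMap ℂ K c) (by omega)
      rw [hord] at h1
      have h2 : Ge P 0 (D (xi u v j / xi u v i - algebraMap ℂ K c)) := by
        rw [map_sub, Derivation.map_algebraMap, sub_zero]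
        have h3 : D (xi u v j / xi u v i) =
            (D (xi u v j) * xi u v i - xi u v j * D (xi u v i)) * ((xi u v i)⁻¹) ^ 2 := by
          have h4 : xi u v j = (xi u v j / xi u v i) * xi u v i := by field_simp
          have h5 := congrArg D h4
          rw [D.leibniz] at h5
          simp only [smul_eq_mul] at h5
          have h6 : D (xi u v j / xi u v i) * xi u v i =
              D (xi u v j) - xi u v j / xi u v i * D (xi u v i) := by
            linear_combination -h5
          apply mul_right_cancel₀ hi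
          rw [h6]
          field_simp
        rw [h3]
        refine gmul (((gmul (gDxi j) (gxi i))).sub (gmul (gxi j) (gDxi i))) (gpow ?_ 2)
        right
        rw [P.ord_inv, hi0]; norm_num
      have h3 := h2.resolve_left h1.1
      rw [h1.2] at h3
      omega
  have hatt : ∃ n ∈ S, (n : ℤ) - 1 + vo P D = 0 := by
    have h0min : ∀ l, xi u v l ≠ 0 → P.ord (xi u v 0) ≤ P.ord (xi u v l) := by
      intro l hl
      have h1 : P.ord (xi u v 0) = 0 := P.ord_one
      rw [h1]
      exact (gxi l).resolve_left hl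
    rcases hou.eq_or_lt with hu | hu
    · obtain ⟨c, hc⟩ := exists_const P gv
      have hne : v - algebraMap ℂ K c ≠ 0 := by
        intro h1
        apply hv
        rw [sub_eq_zero.1 h1]
        exact isAlgebraic_algebraMap _
      have hpos : 1 ≤ P.ord (v - algebraMap ℂ K c) := hc.resolve_left hne
      refine ⟨(P.ord (v - algebraMap ℂ K c)).toNat, ⟨by omega, v, Or.inr ⟨0, 1, one_ne_zero,
        h0min, ?_⟩, c, hne, by omega⟩, ?_⟩
      · change v = v / 1
        rw [div_one]
      · have h1 := (ord_der P hD (f := v - algebraMap ℂ K c) (by omega)).2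
        rw [map_sub, Derivation.map_algebraMap, sub_zero, hDv, P.ord_neg, P.ord_pow, ← hu] at h1
        push_cast at h1
        omega
    · have hov := ord_v_of_pos huv hv0 hu0 hu
      have hord : P.ord (u * v ^ 15) = P.ord u := by
        rw [P.ord_mul hu0 (pow_ne_zero _ hv0), P.ord_pow, hov]; ring
      refine ⟨(P.ord u).toNat, ⟨by omega, u * v ^ 15, Or.inr ⟨0, 2, one_ne_zero,
        h0min, ?_⟩, 0, ?_, ?_⟩, ?_⟩
      · change u * v ^ 15 = u * v ^ 15 / 1
        rw [div_one]
      · rw [map_zero, sub_zero]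
        exact mul_ne_zero hu0 (pow_ne_zero _ hv0)
      · rw [map_zero, sub_zero, hord]; omega
      · have h1 := (ord_der P hD (f := u * v ^ 15) (by omega)).2
        have h16 : (-15 : K) ≠ 0 := by
          have : (-15 : K) = algebraMap ℂ K (-15) := by rw [map_neg, map_ofNat]
          rw [this]
          exact (map_ne_zero _).2 (by norm_num)
        have h2 : P.ord (v ^ 16 + (-15) * u ^ 16) = 0 := by
          have h3 : P.ord (v ^ 16) < P.ord ((-15 : K) * u ^ 16) := by
            have h4 : P.ord (-15 : K) = 0 := by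
              have : (-15 : K) = algebraMap ℂ K (-15) := by rw [map_neg, map_ofNat]
              rw [this]
              exact P.ord_const (by norm_num)
            rw [P.ord_mul h16 (pow_ne_zero _ hu0), h4, P.ord_pow, P.ord_pow, hov]
            push_cast
            omega
          rw [(P.ord_add_eq (pow_ne_zero _ hv0) (mul_ne_zero h16 (pow_ne_zero _ hu0)) h3).2,
            P.ord_pow, hov]
          ring
        have h3 : P.ord (D (u * v ^ 15)) = 0 := by
          have h4 : D (u * v ^ 15) = v ^ 14 * (v ^ 16 + (-15) * u ^ 16) := by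
            rw [hD2]; ring
          by_cases h5 : v ^ 16 + (-15) * u ^ 16 = 0
          · rw [h4, h5, mul_zero, P.ord_zero]
          · rw [h4, P.ord_mul (pow_ne_zero _ hv0) h5, h2, P.ord_pow, hov]
            ring
        rw [h3, hord] at h1
        omega
  obtain ⟨n, hn, hn'⟩ := hatt
  have hm : branchMult P (be K ζ) (xi u v) = n := by
    unfold branchMult
    apply sInf_eq_of hn
    intro k hk
    have := hlow k hk
    omega
  rw [hm]
  exact hn'

include huv hv in
lemma mult_sum (ζ : ℂ) : ∃ D : Derivation ℂ K K, D ≠ 0 ∧ ∀ P : FF.Place ℂ K,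
    ((branchMult P (be K ζ) (xi u v) : ℤ) - 1) + vo P D =
      if P.ord v < 0 then -P.ord v else 0 := by
  obtain ⟨D, hD, hDv, hDu⟩ := exists_D huv hv
  refine ⟨D, hD, fun P => ?_⟩
  split_ifs with h
  · exact contrib_pole huv hv hD hDv ζ h
  · exact contrib_reg huv hv hD hDv hDu ζ (not_lt.1 h)

include huv hv in
lemma mult_finite (ζ : ℂ) : (Function.support fun P : FF.Place ℂ K =>
      ((branchMult P (be K ζ) (xi u v) : ℤ) - 1)).Finite := by
  obtain ⟨D, hD, hsum⟩ := mult_sum huv hv ζ
  have hfin1 : (Function.support fun P : FF.Place ℂ K => vo P D).Finite := vo_finite hD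
  refine (hfin1.union (finite_support (k := ℂ) v)).subset ?_
  intro P hP
  by_contra hcon
  rw [Set.mem_union, not_or] at hcon
  obtain ⟨h1, h2⟩ := hcon
  have h1' : vo P D = 0 := by
    by_contra h3
    exact h1 h3
  have h2' : P.ord v = 0 := by
    by_contra h3
    exact h2 h3
  have h3 := hsum P
  rw [h1', h2', if_neg (lt_irrefl _), add_zero] at h3
  exact hP h3

include huv hv in
/-- the conormal intersection number -/
theorem conormalNumber_eq (ζ : ℂ) :
    conormalNumber K (be K ζ) (xi u v) = -(Module.finrank (IntermediateField.adjoin ℂ {v}) K : ℤ) := by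
  classical
  obtain ⟨D, hD, hsum⟩ := mult_sum huv hv ζ
  have hfin1 : (Function.support fun P : FF.Place ℂ K => vo P D).Finite := vo_finite hD
  have hfin2 := mult_finite huv hv ζ
  unfold conormalNumber
  rw [canDeg_eq hD]
  have h1 : ∑ᶠ P : FF.Place ℂ K, ((branchMult P (be K ζ) (xi u v) : ℤ) - 1) +
      ∑ᶠ P : FF.Place ℂ K, vo P D = ∑ᶠ P : FF.Place ℂ K, if P.ord v < 0 then -P.ord v else 0 := by
    rw [← finsum_add_distrib hfin2 hfin1]
    exact finsum_congr hsum
  obtain ⟨T, hT, hTs⟩ := poles hv
  have h2 : ∑ᶠ P : FF.Place ℂ K, (if P.ord v < 0 then -P.ord v else 0) =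
      (Module.finrank (IntermediateField.adjoin ℂ {v}) K : ℤ) := by
    rw [← hTs, finsum_eq_sum_of_support_subset (s := T)]
    · push_cast
      refine Finset.sum_congr rfl fun P hP => ?_
      rw [if_pos ((hT P).1 hP), deg_one]
      have := (hT P).1 hP
      push_cast
      omega
    · intro P hP
      rw [Finset.mem_coe, hT]
      by_contra h3
      exact hP (if_neg h3)
  linarith

end

end Pool.Agent.TH144.CN.I
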