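import Pool.Agent.TH144.CN.Surf
import Pool.Agent.TH144.CN.Num

/-! The special fibre and its function field. -/

set_option autoImplicit false

open Filter Topology Metric Set
open MvPolynomial
open Pool.Agent.TH144.CN.I (be xi v_ne u_ne)

namespace Pool.Agent.TH144.CN

lemma BiHom.sub {P Q : BiPoly} {d e : ℕ} (h : BiHom P d e) (h' : BiHom Q d e) :
    BiHom (P - Q) d e := by
  have h1 : P - Q = P + C (-1) * Q := by simp [sub_eq_add_neg]
  rw [h1]
  have h2 := (C_hom (-1)).mul h'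
  rw [zero_add, zero_add] at h2
  exact h.add h2

/-- the special fibre -/
noncomputable def Zs (ζ : ℂ) : ClosedSet where
  eqs := {B 1, B 2 - C ζ * B 0, Ap}
  hom := by
    rintro G (rfl | rfl | rfl)
    · exact ⟨_, _, B_hom 1⟩
    · refine ⟨1, 0, (B_hom 2).sub ?_⟩
      have := (C_hom ζ).mul (B_hom 0)
      rwa [zero_add, zero_add] at this
    · exact ⟨_, _, Ap_hom⟩

lemma mem_Zs {L : Type} [Field L] [Algebra ℂ L] {ζ : ℂ} {b x : Fin 3 → L} :
    (Zs ζ).Mem b x ↔ b ≠ 0 ∧ x ≠ 0 ∧ b 1 = 0 ∧ b 2 = algebraMap ℂ L ζ * b 0 ∧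
      x 0 ^ 240 * x 2 ^ 16 + x 1 ^ 256 + x 0 ^ 16 * x 1 ^ 240 = 0 := by
  unfold ClosedSet.Mem Zs
  simp only [mem_insert_iff, mem_singleton_iff, forall_eq_or_imp, forall_eq, aeval_Ap]
  have h1 : aeval (Sum.elim b x) (B 1) = b 1 := by simp [B]
  have h2 : aeval (Sum.elim b x) (B 2 - C ζ * B 0) = b 2 - algebraMap ℂ L ζ * b 0 := by
    simp [B]
  rw [h1, h2, sub_eq_zero]

/-- the special fibre lies in the surface -/
lemma Zs_sub {γ ζ : ℂ} (hζ : ζ ^ 4 = -1) {b x : Fin 3 → ℂ} (h : (Zs ζ).Mem b x) :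
    (Xs γ).Mem b x := by
  obtain ⟨hb, hx, h1, h2, h3⟩ := mem_Zs.1 h
  refine mem_Xs.2 ⟨hb, hx, ?_, ?_⟩
  · rw [h1, h2, Algebra.algebraMap_self, RingHom.id_apply]
    linear_combination b 0 ^ 4 * hζ
  · have : Af x = 0 := h3
    rw [this, h1]
    ring

/-- evaluation of a bihomogeneous polynomial at scaled coordinates -/
lemma BiHom.aeval_smul {L : Type} [Field L] [Algebra ℂ L] {G : BiPoly} {d e : ℕ}
    (hG : BiHom G d e) (s t : L) (b x : Fin 3 → L) :
    aeval (Sum.elim (s • b) (t • x)) G = s ^ d * t ^ e * aeval (Sum.elim b x) G := by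
  rw [aeval_def, aeval_def, eval₂_eq', eval₂_eq', Finset.mul_sum]
  refine Finset.sum_congr rfl fun m hm => ?_
  have h1 := hG (mem_support_iff.1 hm)
  rw [Finsupp.weight_apply, Finsupp.sum_fintype _ _ (by simp), Fintype.sum_sum_type] at h1
  simp only [Sum.elim_inl, Sum.elim_inr, Fin.sum_univ_three, Prod.smul_mk, smul_eq_mul,
    mul_one, mul_zero, Prod.mk_add_mk, add_zero, zero_add, Prod.mk.injEq] at h1
  obtain ⟨hd, he⟩ := h1
  rw [Fintype.prod_sum_type, Fintype.prod_sum_type]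
  simp only [Sum.elim_inl, Sum.elim_inr, Fin.prod_univ_three, Pi.smul_apply, smul_eq_mul, mul_pow]
  rw [← hd, ← he]
  simp only [pow_add]
  ring

section field

variable {K : Type} [Field K] [Algebra ℂ K] {u v : K}

/-- restriction of a bihomogeneous polynomial to the parametrized curve -/
noncomputable def rest (ζ : ℂ) : BiPoly →ₐ[ℂ] MvPolynomial (Fin 2) ℂ :=
  aeval (Sum.elim ![1, 0, C ζ] ![1, X 1, X 0 * X 1 ^ 15])

lemma aeval_rest (ζ : ℂ) (G : BiPoly) (u v : K) :
    aeval ![u, v] (rest ζ G) = aeval (Sum.elim (be K ζ) (xi u v)) G := by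
  unfold rest
  rw [← AlgHom.comp_apply]
  congr 1
  apply algHom_ext
  intro i
  rcases i with i | i
  · fin_cases i <;> simp [be]
  · fin_cases i <;> simp [xi]

/-- complex points of the special fibre off the point at infinity -/
lemma point_form {ζ : ℂ} {p q : Fin 3 → ℂ} (h : (Zs ζ).Mem p q) (hq0 : q 0 ≠ 0) :
    ∃ a c s t : ℂ, a ^ 16 + c ^ 16 + 1 = 0 ∧ p = s • be ℂ ζ ∧ q = t • xi a c := by
  obtain ⟨hp, hq, h1, h2, h3⟩ := mem_Zs.1 h
  have hp' : p = p 0 • be ℂ ζ := by
    funext i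
    fin_cases i
    · simp [be]
    · simpa [be] using h1
    · simp only [Fin.reduceFinMk, Pi.smul_apply, smul_eq_mul]
      rw [h2]
      simp [be]
      ring
  by_cases hc : q 1 = 0
  · rw [hc] at h3
    have hq2 : q 2 = 0 := by
      have : q 0 ^ 240 * q 2 ^ 16 = 0 := by simpa using h3
      exact pow_eq_zero_iff (by norm_num) |>.1 ((mul_eq_zero.1 this).resolve_left (pow_ne_zero _ hq0))
    obtain ⟨a, ha⟩ := IsAlgClosed.exists_pow_nat_eq (-1 : ℂ) (n := 16) (by norm_num)
    refine ⟨a, 0, p 0, q 0, by rw [ha]; norm_num, hp', ?_⟩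
    funext i
    fin_cases i
    · simp [xi]
    · simpa [xi] using hc
    · simpa [xi] using hq2
  · refine ⟨(q 2 / q 0) / (q 1 / q 0) ^ 15, q 1 / q 0, p 0, q 0, ?_, hp', ?_⟩
    · field_simp
      linear_combination h3
    · funext i
      fin_cases i
      · simp [xi]
      · simp [xi]
        field_simp
      · simp [xi]
        field_simp

/-- the point at infinity is a limit of points of the curve -/
lemma infinity_limit (ζ : ℂ) (G : BiPoly) {d e : ℕ} (hG : BiHom G d e)
    (h : ∀ a c : ℂ, a ^ 16 + c ^ 16 + 1 = 0 → aeval (Sum.elim (be ℂ ζ) (xi a c)) G = 0) :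
    aeval (Sum.elim (be ℂ ζ) ![0, 0, 1]) G = 0 := by
  have hroot : ∀ n : ℕ, ∃ a : ℂ, a ^ 16 = -(((n : ℂ) + 1) ^ 16 + 1) := fun n =>
    IsAlgClosed.exists_pow_nat_eq _ (by norm_num)
  choose a ha using hroot
  have hna : ∀ n, 1 ≤ ‖a n‖ := by
    intro n
    by_contra hcon
    push Not at hcon
    have h1 : ‖a n‖ ^ 16 < 1 := pow_lt_one₀ (norm_nonneg _) hcon (by norm_num)
    have h2 : ‖a n‖ ^ 16 = ((n : ℝ) + 1) ^ 16 + 1 := by
      rw [← norm_pow, ha, norm_neg]
      have : (((n : ℂ) + 1) ^ 16 + 1) = (((((n : ℝ) + 1) ^ 16 + 1 : ℝ)) : ℂ) := by push_cast; rfl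
      rw [this, Complex.norm_real, Real.norm_of_nonneg (by positivity)]
    have h3 : (0 : ℝ) ≤ ((n : ℝ) + 1) ^ 16 := by positivity
    linarith
  have ha0 : ∀ n, a n ≠ 0 := fun n h0 => by
    have := hna n
    rw [h0, norm_zero] at this
    linarith
  have hn0 : ∀ n : ℕ, (n : ℂ) + 1 ≠ 0 := fun n => by exact_mod_cast Nat.succ_ne_zero n
  set w : ℕ → ℂ := fun n => (a n * ((n : ℂ) + 1) ^ 15)⁻¹ with hw
  have hzero : ∀ n, aeval (Sum.elim (be ℂ ζ) (w n • xi (a n) ((n : ℂ) + 1))) G = 0 := by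
    intro n
    have h1 := hG.aeval_smul (1 : ℂ) (w n) (be ℂ ζ) (xi (a n) ((n : ℂ) + 1))
    rw [one_smul] at h1
    rw [h1, h (a n) ((n : ℂ) + 1) (by rw [ha]; ring), mul_zero]
  have hform : ∀ n, w n • xi (a n) ((n : ℂ) + 1) =
      ![(a n)⁻¹ * (((n : ℂ) + 1)⁻¹) ^ 15, (a n)⁻¹ * (((n : ℂ) + 1)⁻¹) ^ 14, 1] := by
    intro n
    have h1 := ha0 n
    have h2 := hn0 n
    funext i
    fin_cases i
    · simp [hw, xi]
      ring
    · simp [hw, xi]
      field_simp
    · simp [hw, xi]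
      field_simp
  have hlim0 : ∀ k : ℕ, k ≠ 0 → Tendsto (fun n : ℕ => (a n)⁻¹ * (((n : ℂ) + 1)⁻¹) ^ k) atTop (𝓝 0) := by
    intro k hk
    have h1 : Tendsto (fun n : ℕ => (((n : ℂ) + 1)⁻¹) ^ k) atTop (𝓝 0) := by
      have h2 : Tendsto (fun n : ℕ => ((n : ℂ) + 1)⁻¹) atTop (𝓝 0) := by
        have := tendsto_one_div_add_atTop_nhds_zero_nat (𝕜 := ℂ)
        simpa using this
      have h3 := h2.pow k
      rwa [zero_pow hk] at h3
    refine squeeze_zero_norm (fun n => ?_) (tendsto_zero_iff_norm_tendsto_zero.1 h1)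
    rw [norm_mul, norm_inv]
    have h4 : ‖a n‖⁻¹ ≤ 1 := inv_le_one_of_one_le₀ (hna n)
    exact mul_le_of_le_one_left (norm_nonneg _) h4
  have hlim : Tendsto (fun n => (Sum.elim (be ℂ ζ) (w n • xi (a n) ((n : ℂ) + 1)) :
      Fin 3 ⊕ Fin 3 → ℂ)) atTop (𝓝 (Sum.elim (be ℂ ζ) ![0, 0, 1])) := by
    rw [tendsto_pi_nhds]
    rintro (i | i)
    · exact tendsto_const_nhds
    · simp only [Sum.elim_inr, hform]
      fin_cases i
      · simpa using hlim0 15 (by norm_num)
      · simpa using hlim0 14 (by norm_num)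
      · simp
  have hcont : Continuous fun y : Fin 3 ⊕ Fin 3 → ℂ => aeval y G := by
    have : (fun y : Fin 3 ⊕ Fin 3 → ℂ => aeval y G) = fun y => eval y G := by
      funext y
      rw [aeval_def]; rfl
    rw [this]
    exact MvPolynomial.continuous_eval G
  have h1 := (hcont.tendsto _).comp hlim
  have h2 : ((fun y : Fin 3 ⊕ Fin 3 → ℂ => aeval y G) ∘ fun n =>
      (Sum.elim (be ℂ ζ) (w n • xi (a n) ((n : ℂ) + 1)) : Fin 3 ⊕ Fin 3 → ℂ)) = fun _ => 0 :=
    funext hzero
  rw [h2] at h1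
  exact (tendsto_nhds_unique h1 tendsto_const_nhds)

lemma functionField (ζ : ℂ) (huv : u ^ 16 + v ^ 16 + 1 = 0) (hv : Transcendental ℂ v)
    (hgen : IntermediateField.adjoin ℂ {u, v} = ⊤)
    (hrel : ∀ g : MvPolynomial (Fin 2) ℂ, aeval ![u, v] g = 0 ↔
      ∀ a b : ℂ, a ^ 16 + b ^ 16 + 1 = 0 → aeval ![a, b] g = 0) :
    (Zs ζ).FunctionField K (be K ζ) (xi u v) := by
  have hv0 := v_ne hv
  refine ⟨?_, ?_, ?_⟩
  · refine mem_Zs.2 ⟨?_, ?_, ?_, ?_, ?_⟩
    · intro h
      have := congrFun h 0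
      simp [be] at this
    · intro h
      have := congrFun h 0
      simp [xi] at this
    · simp [be]
    · simp [be]
    · simp only [xi, Matrix.cons_val_zero, Matrix.cons_val_one, Matrix.cons_val]
      linear_combination v ^ 240 * huv
  · intro G d e hG
    rw [← aeval_rest, hrel]
    simp only [aeval_rest]
    constructor
    · intro h p q hpq
      by_cases hq0 : q 0 = 0
      · obtain ⟨hp, hq, h1, h2, h3⟩ := mem_Zs.1 hpq
        rw [hq0] at h3
        have hq1 : q 1 = 0 := by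
          have : q 1 ^ 256 = 0 := by simpa using h3
          exact pow_eq_zero_iff (by norm_num) |>.1 this
        have hp' : p = p 0 • be ℂ ζ := by
          funext i
          fin_cases i
          · simp [be]
          · simpa [be] using h1
          · simp only [Fin.reduceFinMk, Pi.smul_apply, smul_eq_mul]
            rw [h2]
            simp [be]
            ring
        have hq' : q = q 2 • ![0, 0, 1] := by
          funext i
          fin_cases i
          · simpa using hq0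
          · simpa using hq1
          · simp
        rw [hp', hq', hG.aeval_smul, infinity_limit ζ G hG h, mul_zero]
      · obtain ⟨a, c, s, t, hac, rfl, rfl⟩ := point_form hpq hq0
        rw [hG.aeval_smul, h a c hac, mul_zero]
    · intro h a c hac
      apply h
      refine mem_Zs.2 ⟨?_, ?_, ?_, ?_, ?_⟩
      · intro h
        have := congrFun h 0
        simp [be] at this
      · intro h
        have := congrFun h 0
        simp [xi] at this
      · simp [be]
      · simp [be]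
      · simp only [xi, Matrix.cons_val_zero, Matrix.cons_val_one, Matrix.cons_val]
        linear_combination c ^ 240 * hac
  · rw [eq_top_iff, ← hgen, IntermediateField.adjoin_le_iff]
    set L := IntermediateField.adjoin ℂ
      ({f | ∃ i j, be K ζ j ≠ 0 ∧ f = be K ζ i / be K ζ j} ∪
        {f | ∃ i j, xi u v j ≠ 0 ∧ f = xi u v i / xi u v j}) with hL
    have h1 : v ∈ L := by
      apply IntermediateField.subset_adjoin
      right
      exact ⟨1, 0, one_ne_zero, by simp [xi]⟩
    have h2 : u * v ^ 15 ∈ L := by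
      apply IntermediateField.subset_adjoin
      right
      exact ⟨2, 0, one_ne_zero, by simp [xi]⟩
    have h3 : u ∈ L := by
      have h4 : u = (u * v ^ 15) / v ^ 15 := by field_simp
      rw [h4]
      exact L.div_mem h2 (pow_mem h1 15)
    rintro f (rfl | rfl)
    · exact h3
    · exact h1

end field

end Pool.Agent.TH144.CN
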