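import Mathlib

/-!
# Definitions

Closed subsets of `P² × P²`, smooth surfaces, the Kobayashi pseudodistance, function fields of
irreducible closed subsets, and the intersection number `T*_Z X · T*_X X` for a curve `Z`.
-/

set_option autoImplicit false

open MvPolynomial Metric
open scoped LinearAlgebra.Projectivization

namespace Pool.Agent.TH144.CN

/-- The complex projective plane. -/
abbrev P2 : Type := ℙ ℂ (Fin 3 → ℂ)

/-- Polynomials in the homogeneous coordinates `b` of the first and `x` of the second factor of
`P² × P²`. -/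
abbrev BiPoly : Type := MvPolynomial (Fin 3 ⊕ Fin 3) ℂ

/-- `G` is homogeneous of degree `d` in `b` and of degree `e` in `x`. -/
def BiHom (G : BiPoly) (d e : ℕ) : Prop :=
  IsWeightedHomogeneous
    (Sum.elim (fun _ => ((1 : ℕ), (0 : ℕ))) fun _ => ((0 : ℕ), (1 : ℕ))) G (d, e)

/-- A closed subset of `P² × P²`, given by bihomogeneous equations. -/
structure ClosedSet where
  eqs : Set BiPoly
  hom : ∀ G ∈ eqs, ∃ d e, BiHom G d e

namespace ClosedSet

variable (X : ClosedSet)

/-- `b` and `x` are the homogeneous coordinates of a point of `X` over the field `L`. -/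
def Mem {L : Type} [Field L] [Algebra ℂ L] (b x : Fin 3 → L) : Prop :=
  b ≠ 0 ∧ x ≠ 0 ∧ ∀ G ∈ X.eqs, aeval (Sum.elim b x) G = 0

/-- The set of complex points of `X`. -/
def points : Set (P2 × P2) :=
  {p | ∃ (b x : Fin 3 → ℂ) (hb : b ≠ 0) (hx : x ≠ 0), X.Mem b x ∧
    p = (Projectivization.mk ℂ b hb, Projectivization.mk ℂ x hx)}

/-- `X` is a smooth surface in `P² × P²`: it is the complete intersection of two hypersurfaces
`E = 0`, `F = 0` whose gradients are linearly independent at all points of `X` (Jacobian
criterion). -/
def SmoothSurface : Prop :=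
  ∃ E F : BiPoly, X.eqs = {E, F} ∧ ∀ b x : Fin 3 → ℂ, X.Mem b x →
    LinearIndependent ℂ ![fun i => eval (Sum.elim b x) (pderiv i E),
      fun i => eval (Sum.elim b x) (pderiv i F)]

/-- `X` is connected. Stated for the cone of all pairs of homogeneous coordinate vectors of points
of `X`, a principal bundle over `X` with group `(ℂ \ {0})²`; it is connected iff `X` is. -/
def Connected : Prop := IsConnected {p : (Fin 3 → ℂ) × (Fin 3 → ℂ) | X.Mem p.1 p.2}

/-- The closed subset `Z` is irreducible with function field `K`, and `b`, `x` are homogeneous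
coordinates of its generic point: a bihomogeneous polynomial vanishes at `(b, x)` iff it vanishes
on `Z`, and `K` is generated over `ℂ` by the ratios of the coordinates. -/
structure FunctionField (Z : ClosedSet) (K : Type) [Field K] [Algebra ℂ K] (b x : Fin 3 → K) :
    Prop where
  mem : Z.Mem b x
  van : ∀ (G : BiPoly) (d e : ℕ), BiHom G d e →
    (aeval (Sum.elim b x) G = 0 ↔ ∀ p q : Fin 3 → ℂ, Z.Mem p q → aeval (Sum.elim p q) G = 0)
  gen : IntermediateField.adjoin ℂ
    ({f | ∃ i j, b j ≠ 0 ∧ f = b i / b j} ∪ {f | ∃ i j, x j ≠ 0 ∧ f = x i / x j}) = ⊤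

end ClosedSet

/-! ### The Kobayashi pseudodistance -/

/-- `f` is a holomorphic map from the open set `U` to `P² × P²`: near every point of `U` it is
given by holomorphic homogeneous coordinates. -/
def HolomorphicOn (U : Set ℂ) (f : ℂ → P2 × P2) : Prop :=
  ∀ z ∈ U, ∃ (V : Set ℂ) (b x : ℂ → Fin 3 → ℂ), IsOpen V ∧ z ∈ V ∧
    DifferentiableOn ℂ b V ∧ DifferentiableOn ℂ x V ∧
    ∀ w ∈ V, ∃ (hb : b w ≠ 0) (hx : x w ≠ 0),
      f w = (Projectivization.mk ℂ (b w) hb, Projectivization.mk ℂ (x w) hx)

/-- The Poincaré distance of two points of the unit disc (curvature `-1`). -/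
noncomputable def poincareDist (s t : ℂ) : ℝ :=
  Real.log ((1 + ‖s - t‖ / ‖1 - (starRingEnd ℂ) s * t‖) /
    (1 - ‖s - t‖ / ‖1 - (starRingEnd ℂ) s * t‖))

/-- `c` is the total Poincaré length of a chain of holomorphic discs in `S` from `p` to `q`. -/
def IsChainLength (S : Set (P2 × P2)) (p q : P2 × P2) (c : ℝ) : Prop :=
  ∃ (k : ℕ) (r : Fin (k + 1) → P2 × P2) (f : Fin k → ℂ → P2 × P2) (s t : Fin k → ℂ),
    r 0 = p ∧ r (Fin.last k) = q ∧
    (∀ i : Fin k, HolomorphicOn (ball 0 1) (f i) ∧ (∀ z ∈ ball (0 : ℂ) 1, f i z ∈ S) ∧
      s i ∈ ball (0 : ℂ) 1 ∧ t i ∈ ball (0 : ℂ) 1 ∧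
      f i (s i) = r i.castSucc ∧ f i (t i) = r i.succ) ∧
    c = ∑ i : Fin k, poincareDist (s i) (t i)

/-- The Kobayashi pseudodistance of `S`: the infimum of the lengths of the chains of holomorphic
discs in `S` that join the two points. -/
noncomputable def kobayashi (S : Set (P2 × P2)) (p q : P2 × P2) : ENNReal :=
  ⨅ (c : ℝ) (_ : IsChainLength S p q c), ENNReal.ofReal c

/-- `S` is Kobayashi hyperbolic: the Kobayashi pseudodistance separates the points of `S`. -/
def KobayashiHyperbolic (S : Set (P2 × P2)) : Prop :=
  ∀ p ∈ S, ∀ q ∈ S, p ≠ q → 0 < kobayashi S p q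

/-! ### The intersection number `T*_Z X · T*_X X` of a curve -/

/-- A point of the smooth projective model of the curve with function field `K`: a normalised
discrete valuation of `K`, trivial on `ℂ`. -/
structure Place (K : Type) [Field K] [Algebra ℂ K] where
  ord : K → ℤ
  ord_zero : ord 0 = 0
  ord_mul : ∀ {f g : K}, f ≠ 0 → g ≠ 0 → ord (f * g) = ord f + ord g
  ord_add : ∀ {f g : K}, f ≠ 0 → g ≠ 0 → f + g ≠ 0 → min (ord f) (ord g) ≤ ord (f + g)
  ord_const : ∀ {c : ℂ}, c ≠ 0 → ord (algebraMap ℂ K c) = 0
  surj : ∃ t : K, t ≠ 0 ∧ ord t = 1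

section curve

variable {K : Type} [Field K] [Algebra ℂ K]

/-- The affine coordinates `a j / a i` around the centre of the place `P`, for a vector `a` of
homogeneous coordinates of the generic point. -/
def affineCoords (P : Place K) (a : Fin 3 → K) : Set K :=
  {f | ∃ i j, a i ≠ 0 ∧ (∀ l, a l ≠ 0 → P.ord (a i) ≤ P.ord (a l)) ∧ f = a j / a i}

/-- The multiplicity `m_P` of the branch of the curve at the place `P` (a point of the
normalization): the least positive order at `P` of an affine coordinate minus a constant. -/
noncomputable def branchMult (P : Place K) (b x : Fin 3 → K) : ℕ :=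
  sInf {m : ℕ | 0 < m ∧ ∃ f ∈ affineCoords P b ∪ affineCoords P x, ∃ c : ℂ,
    f - algebraMap ℂ K c ≠ 0 ∧ P.ord (f - algebraMap ℂ K c) = m}

/-- The order at `P` of the rational vector field `D` of the curve, as a section of the tangent
bundle of the normalization: the order of `D t` for a uniformizer `t` at `P`. -/
noncomputable def vectorOrder (P : Place K) (D : Derivation ℂ K K) : ℤ :=
  sInf {m : ℤ | ∃ t : K, P.ord t = 1 ∧ P.ord (D t) = m}

/-- The intersection number `T*_Z X · T*_X X` for an irreducible curve `Z` with function field `K`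
in a projective manifold `X ⊆ P² × P²`, by the index formula; `b`, `x` are homogeneous coordinates
of the generic point of `Z`, and `D` is any nonzero derivation of `K` over `ℂ`. By the index
formula `T*_Z X · T*_X X = -χ(Eu_Z)`. The Euler obstruction of a curve is its multiplicity, the sum
of the multiplicities `m_P` of its branches; so with `g` the genus of the normalization
`-χ(Eu_Z) = (2 g - 2) - ∑ (m_P - 1)`, the sum over all points `P` of the normalization, and
`2 - 2 g = ∑ vectorOrder P D` is the degree of the tangent bundle of the normalization. -/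
noncomputable def indexNumber (b x : Fin 3 → K) (D : Derivation ℂ K K) : ℤ :=
  -(∑ᶠ P : Place K, vectorOrder P D) - ∑ᶠ P : Place K, ((branchMult P b x : ℤ) - 1)

/-- The order at `P` of the nonzero rational vector field `D` of the curve, as a section of the
tangent line bundle `L` of the curve in `X`, the saturation of the image of the tangent bundle of
the normalization in the pullback of `TX`: the least order at `P` of the derivative of an affine
coordinate. -/
noncomputable def tangentOrder (P : Place K) (b x : Fin 3 → K) (D : Derivation ℂ K K) : ℤ :=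
  sInf {m : ℤ | ∃ f ∈ affineCoords P b ∪ affineCoords P x, D f ≠ 0 ∧ P.ord (D f) = m}

/-- The intersection number `T*_Z X · T*_X X` computed on the conormal variety: with
`ν : C → Z ⊆ X` the normalization and `L ⊆ ν* TX` the tangent line bundle, `T*_Z X` is the
birational proper image of the bundle `N ⊆ ν* T*X` of the covectors vanishing on `L`, so the
intersection number with the zero section is `c₁(ν* T*X / N) = -deg L`, minus the degree of the
divisor of any nonzero rational section `D` of `L`. -/
noncomputable def conormalNumber (b x : Fin 3 → K) (D : Derivation ℂ K K) : ℤ :=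
  -∑ᶠ P : Place K, tangentOrder P b x D

end curve

end Pool.Agent.TH144.CN
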