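import Pool.Agent.TH144.CN.Num

/-! The function field of the Fermat curve has degree 16 over the line. -/

set_option autoImplicit false

open FF
open scoped IntermediateField Polynomial

namespace Pool.Agent.TH144.CN.I

variable {K : Type} [Field K] [Algebra ℂ K] {u v : K}

lemma adjoin_u_top (hgen : IntermediateField.adjoin ℂ {u, v} = ⊤) :
    IntermediateField.adjoin (IntermediateField.adjoin ℂ {v}) {u} = ⊤ := by
  have h := IntermediateField.adjoin_adjoin_left ℂ {v} {u}
  rw [← IntermediateField.restrictScalars_eq_top_iff (K := ℂ), h]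
  rw [← hgen]
  congr 1
  ext x
  simp [or_comm]

lemma isRoot_u (huv : u ^ 16 + v ^ 16 + 1 = 0) :
    Polynomial.aeval u (Polynomial.X ^ 16 + Polynomial.C
      ((IntermediateField.AdjoinSimple.gen ℂ v) ^ 16 + 1)) = 0 := by
  rw [map_add, map_pow, Polynomial.aeval_X, Polynomial.aeval_C, map_add, map_pow,
    IntermediateField.AdjoinSimple.algebraMap_gen, map_one]
  linear_combination huv

lemma integral_u (huv : u ^ 16 + v ^ 16 + 1 = 0) :
    IsIntegral (IntermediateField.adjoin ℂ {v}) u := by
  have hmon : (Polynomial.X ^ 16 + Polynomial.C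
      ((IntermediateField.AdjoinSimple.gen ℂ v) ^ 16 + 1)).Monic :=
    Polynomial.monic_X_pow_add_C _ (by norm_num)
  exact ⟨_, hmon, isRoot_u huv⟩

lemma finrank_eq (huv : u ^ 16 + v ^ 16 + 1 = 0) (hgen : IntermediateField.adjoin ℂ {u, v} = ⊤) :
    Module.finrank (IntermediateField.adjoin ℂ {v}) K =
      (minpoly (IntermediateField.adjoin ℂ {v}) u).natDegree := by
  have h1 := IntermediateField.adjoin.finrank (integral_u huv)
  rw [adjoin_u_top hgen, IntermediateField.finrank_top'] at h1
  exact h1

lemma finDim (huv : u ^ 16 + v ^ 16 + 1 = 0) (hgen : IntermediateField.adjoin ℂ {u, v} = ⊤) :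
    FiniteDimensional (IntermediateField.adjoin ℂ {v}) K := by
  apply FiniteDimensional.of_finrank_pos
  rw [finrank_eq huv hgen]
  exact minpoly.natDegree_pos (integral_u huv)

lemma isFF (huv : u ^ 16 + v ^ 16 + 1 = 0) (hv : Transcendental ℂ v)
    (hgen : IntermediateField.adjoin ℂ {u, v} = ⊤) : IsFF ℂ K :=
  IsFF.of_finite hv (finDim huv hgen)

/-- few powers of `u` satisfy no relation over `ℂ[v]` -/
lemma no_relation (hrel : ∀ g : MvPolynomial (Fin 2) ℂ, MvPolynomial.aeval ![u, v] g = 0 ↔
      ∀ a b : ℂ, a ^ 16 + b ^ 16 + 1 = 0 → MvPolynomial.aeval ![a, b] g = 0)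
    (n : ℕ) (hn : n < 16) (g : ℕ → ℂ[X])
    (h : ∑ i ∈ Finset.range (n + 1), Polynomial.aeval v (g i) * u ^ i = 0) : g n = 0 := by
  by_contra hgn
  set G : MvPolynomial (Fin 2) ℂ := ∑ i ∈ Finset.range (n + 1),
    Polynomial.aeval (MvPolynomial.X 1 : MvPolynomial (Fin 2) ℂ) (g i) * MvPolynomial.X 0 ^ i with hG
  have hev : ∀ {L : Type} [Field L] [Algebra ℂ L] (a b : L), MvPolynomial.aeval ![a, b] G =
      ∑ i ∈ Finset.range (n + 1), Polynomial.aeval b (g i) * a ^ i := by
    intro L _ _ a b
    rw [hG, map_sum]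
    refine Finset.sum_congr rfl fun i _ => ?_
    rw [map_mul, map_pow, MvPolynomial.aeval_X, ← Polynomial.aeval_algHom_apply,
      MvPolynomial.aeval_X]
    rfl
  have h1 := (hrel G).1 (by rw [hev]; exact h)
  -- choose a good value `b`
  have hne : (g n) * (Polynomial.X ^ 16 + Polynomial.C 1) ≠ 0 :=
    mul_ne_zero hgn (Polynomial.Monic.ne_zero (Polynomial.monic_X_pow_add_C _ (by norm_num)))
  obtain ⟨b, hb⟩ : ∃ b : ℂ, ((g n) * (Polynomial.X ^ 16 + Polynomial.C 1)).eval b ≠ 0 := by
    by_contra hcon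
    push Not at hcon
    exact hne (Polynomial.funext (by simpa using hcon))
  rw [Polynomial.eval_mul] at hb
  have hb1 : (g n).eval b ≠ 0 := left_ne_zero_of_mul hb
  have hb2 : b ^ 16 + 1 ≠ 0 := by
    have := right_ne_zero_of_mul hb
    simpa using this
  set Q : ℂ[X] := ∑ i ∈ Finset.range (n + 1), Polynomial.C ((g i).eval b) * Polynomial.X ^ i with hQ
  have hQe : ∀ a, Q.eval a = ∑ i ∈ Finset.range (n + 1), (g i).eval b * a ^ i := by
    intro a
    rw [hQ, Polynomial.eval_finsetSum]
    simp
  have hQn : Q.coeff n = (g n).eval b := by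
    rw [hQ, Polynomial.finsetSum_coeff]
    simp only [Polynomial.coeff_C_mul, Polynomial.coeff_X_pow]
    rw [Finset.sum_eq_single n]
    · simp
    · intro i _ hi
      simp [Ne.symm hi]
    · intro h; simp at h
  have hQ0 : Q ≠ 0 := by
    intro h0
    rw [h0, Polynomial.coeff_zero] at hQn
    exact hb1 hQn.symm
  have hdeg : Q.natDegree ≤ n := by
    rw [hQ]
    refine Polynomial.natDegree_sum_le_of_forall_le _ _ fun i hi => ?_
    refine (Polynomial.natDegree_C_mul_X_pow_le _ _).trans ?_
    rw [Finset.mem_range] at hi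
    omega
  set R : ℂ[X] := Polynomial.X ^ 16 - Polynomial.C (-(b ^ 16 + 1)) with hR
  have hsep : R.Separable :=
    Polynomial.separable_X_pow_sub_C _ (by norm_num) (neg_ne_zero.2 hb2)
  have hRdeg : R.natDegree = 16 := Polynomial.natDegree_X_pow_sub_C
  have hcard : R.roots.toFinset.card = 16 := by
    rw [Multiset.toFinset_card_of_nodup (Polynomial.nodup_roots hsep),
      IsAlgClosed.card_roots_eq_natDegree, hRdeg]
  have hsub : R.roots.toFinset ⊆ Q.roots.toFinset := by
    intro a ha
    rw [Multiset.mem_toFinset, Polynomial.mem_roots', hR] at ha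
    rw [Multiset.mem_toFinset, Polynomial.mem_roots hQ0]
    have ha2 : a ^ 16 + b ^ 16 + 1 = 0 := by
      have := ha.2
      simp only [Polynomial.IsRoot, Polynomial.eval_sub, Polynomial.eval_pow, Polynomial.eval_X,
        Polynomial.eval_C] at this
      linear_combination this
    have h2 := h1 a b ha2
    rw [hev] at h2
    change Q.eval a = 0
    rw [hQe]
    simpa [Polynomial.aeval_def, Polynomial.eval₂_eq_eval_map] using h2
  have h3 := Finset.card_le_card hsub
  have h4 := (Multiset.toFinset_card_le Q.roots).trans (Polynomial.card_roots' Q)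
  omega

lemma natDegree_eq (huv : u ^ 16 + v ^ 16 + 1 = 0)
    (hrel : ∀ g : MvPolynomial (Fin 2) ℂ, MvPolynomial.aeval ![u, v] g = 0 ↔
      ∀ a b : ℂ, a ^ 16 + b ^ 16 + 1 = 0 → MvPolynomial.aeval ![a, b] g = 0) :
    (minpoly (IntermediateField.adjoin ℂ {v}) u).natDegree = 16 := by
  classical
  set m := minpoly (IntermediateField.adjoin ℂ {v}) u with hm
  apply le_antisymm
  · have hmon : (Polynomial.X ^ 16 + Polynomial.C
        ((IntermediateField.AdjoinSimple.gen ℂ v) ^ 16 + 1)).Monic :=
      Polynomial.monic_X_pow_add_C _ (by norm_num)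
    have h1 := Polynomial.natDegree_le_of_dvd (minpoly.dvd _ u (isRoot_u huv)) hmon.ne_zero
    rwa [Polynomial.natDegree_X_pow_add_C] at h1
  · by_contra hlt
    push Not at hlt
    have hfrac : ∀ i, ∃ r s : ℂ[X], Polynomial.aeval v s ≠ 0 ∧
        (m.coeff i : K) = Polynomial.aeval v r / Polynomial.aeval v s := by
      intro i
      obtain ⟨r, s, hrs⟩ := (IntermediateField.mem_adjoin_simple_iff ℂ _).1 (m.coeff i).2
      by_cases hs : Polynomial.aeval v s = 0
      · refine ⟨0, 1, by simp, ?_⟩
        rw [hrs, hs]; simp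
      · exact ⟨r, s, hs, hrs⟩
    choose r s hs hrs using hfrac
    set S : ℂ[X] := ∏ i ∈ Finset.range (m.natDegree + 1), s i with hS
    have hSv : Polynomial.aeval v S ≠ 0 := by
      rw [hS, map_prod]
      exact Finset.prod_ne_zero_iff.2 fun i _ => hs i
    set g : ℕ → ℂ[X] := fun i => r i * ∏ j ∈ (Finset.range (m.natDegree + 1)).erase i, s j with hg
    have hgi : ∀ i ∈ Finset.range (m.natDegree + 1),
        Polynomial.aeval v (g i) = Polynomial.aeval v S * (m.coeff i : K) := by
      intro i hi
      rw [hg, hS, hrs i, ← Finset.mul_prod_erase _ _ hi, map_mul, map_mul]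
      have := hs i
      field_simp
    have h0 : ∑ i ∈ Finset.range (m.natDegree + 1), Polynomial.aeval v (g i) * u ^ i = 0 := by
      have h1 := minpoly.aeval (IntermediateField.adjoin ℂ {v}) u
      rw [← hm, Polynomial.aeval_eq_sum_range] at h1
      calc ∑ i ∈ Finset.range (m.natDegree + 1), Polynomial.aeval v (g i) * u ^ i
          = ∑ i ∈ Finset.range (m.natDegree + 1), Polynomial.aeval v S * (m.coeff i • u ^ i) := by
            refine Finset.sum_congr rfl fun i hi => ?_
            rw [hgi i hi, Algebra.smul_def, mul_assoc]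
            rfl
        _ = 0 := by rw [← Finset.mul_sum, h1, mul_zero]
    have h1 := no_relation hrel m.natDegree hlt g h0
    have h2 := hgi m.natDegree (Finset.mem_range.2 (Nat.lt_succ_self _))
    rw [h1, map_zero] at h2
    have h3 : m.coeff m.natDegree = 1 := (minpoly.monic (integral_u huv)).coeff_natDegree
    rw [h3] at h2
    apply hSv
    simpa using h2.symm

end Pool.Agent.TH144.CN.I
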