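import Pool.Agent.H159R3.Toric.Analytic
import Pool.Agent.H159R3.Lang.Powers

/-! Entire solutions of sparse equations. -/

set_option autoImplicit false

open Filter Topology Metric Set
open Pool.Agent.H159R3.NV (ev_ne)
open Pool.Agent.H159R3.Toric (class_sums exists_b)

namespace Pool.Agent.TH144.CN

theorem toric_sum {n : ℕ} (f : Fin n → ℂ → ℂ) (hf : ∀ j, Differentiable ℂ (f j))
    (z0 : ℂ) (hz0 : ∀ j, (∃ z, f j z ≠ 0) → f j z0 ≠ 0) (b : Fin n → ℤ)
    (hb : ∀ q : Fin n → ℤ, ∑ j, (q j : ℂ) * (deriv (f j) z0 / f j z0) = 0 → ∑ j, q j * b j = 0)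
    {ι : Type} [DecidableEq ι] (S : Finset ι) (E : ι → Fin n → ℕ) (c : ι → ℂ)
    {N : ℕ} (hN : 0 < N) (hs : (S.card - 1) ^ 2 ≤ N)
    (hF : ∀ z, ∑ i ∈ S, c i * (∏ j, f j z ^ E i j) ^ N = 0) (v : ℤ) :
    ∑ i ∈ S.filter (fun i => ∑ j, (E i j : ℤ) * b j = v),
      c i * (∏ j, f j z0 ^ E i j) ^ N = 0 := by
  classical
  let h : ι → ℂ → ℂ := fun i z => ∏ j, f j z ^ E i j
  have hd : ∀ i, Differentiable ℂ (h i) := by
    intro i
    apply Differentiable.fun_finsetProd
    intro j _
    exact (hf j).pow _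
  have hnz : ∀ i, (∃ z, h i z ≠ 0) → ∏ j, f j z0 ^ E i j ≠ 0 := by
    intro i hz
    obtain ⟨z, hz⟩ := hz
    have h1 : ∏ j, f j z ^ E i j ≠ 0 := hz
    rw [Finset.prod_ne_zero_iff] at h1 ⊢
    intro j hj
    have h2 := h1 j hj
    by_cases hα0 : E i j = 0
    · rw [hα0, pow_zero]; exact one_ne_zero
    · apply pow_ne_zero
      apply hz0
      exact ⟨z, fun h0 => h2 (by rw [h0, zero_pow hα0])⟩
  have hlog : ∀ i, (∃ z, h i z ≠ 0) →
      logDeriv (fun z => ∏ j, f j z ^ E i j) z0 = ∑ j, (E i j : ℂ) * (deriv (f j) z0 / f j z0) := by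
    intro i hz
    have h1 := hnz i hz
    rw [Finset.prod_ne_zero_iff] at h1
    rw [logDeriv_prod]
    · refine Finset.sum_congr rfl fun j _ => ?_
      rw [logDeriv_fun_pow (hf j z0)]
      rfl
    · intro j hj
      exact h1 j hj
    · intro j _
      exact ((hf j z0).pow _)
  have hφ : ∀ i ∈ S, ∀ k ∈ S, (∃ z, h i z ≠ 0) → (∃ z, h k z ≠ 0) →
      (∃ c : ℂ, ∀ z, h i z = c * h k z) →
      ∑ j, (E i j : ℤ) * b j = ∑ j, (E k j : ℤ) * b j := by
    intro i _ k _ ha hb' hcc
    obtain ⟨c, hcc⟩ := hcc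
    have hc0 : c ≠ 0 := by
      rintro rfl
      obtain ⟨z, hz⟩ := ha
      exact hz (by rw [hcc z, zero_mul])
    have h1 : (fun z => ∏ j, f j z ^ E i j) = fun z => c * ∏ j, f j z ^ E k j := by
      funext z
      exact hcc z
    have h2 := hlog i ha
    rw [h1, logDeriv_const_mul z0 c hc0, hlog k hb'] at h2
    have h3 := hb (fun j => (E i j : ℤ) - (E k j : ℤ)) (by
      push_cast
      simp only [sub_mul]
      rw [Finset.sum_sub_distrib, ← h2, sub_self])
    simp only [sub_mul] at h3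
    rw [Finset.sum_sub_distrib] at h3
    linarith
  exact class_sums hN h hd (fun i => ∑ j, (E i j : ℤ) * b j) S hs hφ c hF v z0

/-- From an entire curve to a one-parameter group. -/
theorem curve {n : ℕ} (F : ℂ → Fin n → ℂ) (hF : Differentiable ℂ F)
    (hw : ∃ j k z, F z j * deriv (fun z => F z k) z - F z k * deriv (fun z => F z j) z ≠ 0)
    {ι : Type} [DecidableEq ι] (S : Finset ι) (E : ι → Fin n → ℕ) (c : ι → ℂ)
    {N : ℕ} (hN : 0 < N) (hs : (S.card - 1) ^ 2 ≤ N)
    (h0 : ∀ z, ∑ i ∈ S, c i * (∏ j, F z j ^ E i j) ^ N = 0) :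
    ∃ (z0 : ℂ) (b : Fin n → ℤ) (j k : Fin n), F z0 j ≠ 0 ∧ F z0 k ≠ 0 ∧ b j ≠ b k ∧
      ∀ v : ℤ, ∑ i ∈ S.filter (fun i => ∑ j, (E i j : ℤ) * b j = v),
        c i * (∏ j, F z0 j ^ E i j) ^ N = 0 := by
  classical
  have hfj : ∀ j, Differentiable ℂ (fun z => F z j) := fun j => by
    rw [differentiable_pi] at hF
    exact hF j
  have hfd : ∀ j, Differentiable ℂ (deriv (fun z => F z j)) := fun j =>
    ((hfj j).contDiff (n := 2)).differentiable_deriv_two
  obtain ⟨j1, k1, zw, hzw⟩ := hw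
  have hwd : Differentiable ℂ (fun z => F z j1 * deriv (fun z => F z k1) z
      - F z k1 * deriv (fun z => F z j1) z) :=
    ((hfj j1).mul (hfd k1)).sub ((hfj k1).mul (hfd j1))
  have hev : ∀ᶠ z in 𝓝[≠] (0 : ℂ), (∀ j, (∃ z, F z j ≠ 0) → F z j ≠ 0) ∧
      F z j1 * deriv (fun z => F z k1) z - F z k1 * deriv (fun z => F z j1) z ≠ 0 := by
    refine Filter.Eventually.and ?_ (ev_ne hwd hzw 0)
    rw [Filter.eventually_all]
    intro j
    by_cases hj : ∃ z, F z j ≠ 0
    · obtain ⟨z, hz⟩ := hj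
      filter_upwards [ev_ne (hfj j) hz 0] with w hw _
      exact hw
    · exact Filter.Eventually.of_forall fun w hw => absurd hw hj
  obtain ⟨z0, hz0, hz0w⟩ := hev.exists
  have hj1 : F z0 j1 ≠ 0 := by
    apply hz0
    by_contra hcon
    push Not at hcon
    apply hz0w
    have h1 : (fun z => F z j1) = fun _ => 0 := funext hcon
    rw [hcon z0, h1]
    simp
  have hk1 : F z0 k1 ≠ 0 := by
    apply hz0
    by_contra hcon
    push Not at hcon
    apply hz0w
    have h1 : (fun z => F z k1) = fun _ => 0 := funext hcon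
    rw [hcon z0, h1]
    simp
  set u : Fin n → ℂ := fun j => deriv (fun z => F z j) z0 / F z0 j with hu
  have hune : ∑ j, (((Pi.single k1 1 - Pi.single j1 1 : Fin n → ℤ) j : ℤ) : ℂ) * u j ≠ 0 := by
    have h1 : ∑ j, (((Pi.single k1 1 - Pi.single j1 1 : Fin n → ℤ) j : ℤ) : ℂ) * u j
        = u k1 - u j1 := by
      simp only [Pi.sub_apply, Int.cast_sub, sub_mul]
      rw [Finset.sum_sub_distrib]
      congr 1
      · rw [Finset.sum_eq_single k1]
        · simp
        · intro j _ hj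
          simp [hj]
        · simp
      · rw [Finset.sum_eq_single j1]
        · simp
        · intro j _ hj
          simp [hj]
        · simp
    rw [h1]
    intro h0
    apply hz0w
    simp only [hu] at h0
    rw [div_sub_div _ _ hk1 hj1, div_eq_zero_iff] at h0
    rcases h0 with h0 | h0
    · linear_combination h0
    · exact absurd h0 (mul_ne_zero hk1 hj1)
  obtain ⟨b, hb, hbp⟩ := exists_b u _ hune
  have hbjk : b k1 ≠ b j1 := by
    intro h0
    apply hbp
    simp only [Pi.sub_apply, sub_mul]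
    rw [Finset.sum_sub_distrib, Finset.sum_eq_single k1, Finset.sum_eq_single j1]
    · simp [h0]
    · intro j _ hj; simp [hj]
    · simp
    · intro j _ hj; simp [hj]
    · simp
  refine ⟨z0, b, k1, j1, hk1, hj1, hbjk, fun v => ?_⟩
  exact toric_sum (fun j z => F z j) hfj z0 hz0 b hb S E c hN hs h0 v

/-- an entire vector with vanishing Wronskians has constant direction -/
theorem const_dir {n : ℕ} (F : ℂ → Fin n → ℂ) (hF : Differentiable ℂ F) (h0 : ∃ z, F z ≠ 0)
    (hw : ∀ j k z, F z j * deriv (fun z => F z k) z - F z k * deriv (fun z => F z j) z = 0) :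
    ∃ a : Fin n → ℂ, a ≠ 0 ∧ ∀ z, ∃ g : ℂ, F z = g • a := by
  have hfj : ∀ j, Differentiable ℂ (fun z => F z j) := fun j => by
    rw [differentiable_pi] at hF
    exact hF j
  obtain ⟨z, hz⟩ := h0
  obtain ⟨k, hk⟩ := Function.ne_iff.1 hz
  have hk' : F z k ≠ 0 := hk
  have hc : ∀ j, ∃ c : ℂ, ∀ z, F z j = c * F z k := fun j =>
    Pool.Agent.H159R3.Lang.proportional (hfj j) (hfj k) ⟨z, hk'⟩ (fun z => hw k j z)
  choose c hc using hc
  refine ⟨c, ?_, fun w => ⟨F w k, ?_⟩⟩
  · intro h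
    have := hc k z
    rw [h] at this
    simp only [Pi.zero_apply, zero_mul] at this
    exact hk' this
  · funext j
    rw [hc j w, Pi.smul_apply, smul_eq_mul, mul_comm]

/-- no nonconstant entire curves on the Fermat quartic -/
theorem fermat4 (F : ℂ → Fin 3 → ℂ) (hF : Differentiable ℂ F)
    (h : ∀ z, F z 0 ^ 4 + F z 1 ^ 4 + F z 2 ^ 4 = 0) :
    ∀ j k z, F z j * deriv (fun z => F z k) z - F z k * deriv (fun z => F z j) z = 0 := by
  by_contra hcon
  push Not at hcon
  obtain ⟨z0, b, j, k, hj, hk, hb, hv⟩ := curve F hF hcon (Finset.univ : Finset (Fin 3))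
    (fun i => Pi.single i 1) (fun _ => 1) (N := 4) (by norm_num) (by simp) (by
      intro z
      rw [Fin.sum_univ_three]
      simp only [Fin.prod_univ_three, one_mul]
      simpa using h z)
  have key : ∀ v : ℤ, (if b 0 = v then F z0 0 ^ 4 else 0) + (if b 1 = v then F z0 1 ^ 4 else 0) +
      (if b 2 = v then F z0 2 ^ 4 else 0) = 0 := by
    intro v
    have h1 := hv v
    rw [Finset.sum_filter, Fin.sum_univ_three] at h1
    simpa [Fin.sum_univ_three, Fin.prod_univ_three] using h1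
  have hp : ∀ i, F z0 i ≠ 0 → F z0 i ^ 4 ≠ 0 := fun i hi => pow_ne_zero 4 hi
  have h0 := key (b 0)
  have h1 := key (b 1)
  have h2 := key (b 2)
  have hpj := hp j hj
  have hpk := hp k hk
  fin_cases j <;> fin_cases k <;> simp only [Fin.zero_eta, Fin.mk_one, Fin.reduceFinMk, Fin.isValue]
    at hj hk hb hpj hpk <;> first | exact hb rfl | skip
  all_goals
    split_ifs at h0 h1 h2 <;>
      first
        | (exfalso; omega)
        | (exfalso; first | exact hpj (by linear_combination h0) | exact hpj (by linear_combination h1) | exact hpj (by linear_combination h2) | exact hpk (by linear_combination h0) | exact hpk (by linear_combination h1) | exact hpk (by linear_combination h2))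

end Pool.Agent.TH144.CN
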