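import Pool.Agent.TH144.CN.Defs
import Pool.Agent.W603.LV.Ex

/-! Internal versions of the definitions for the places of the library. -/

set_option autoImplicit false

namespace Pool.Agent.TH144.CN.I

variable {K : Type} [Field K] [Algebra ℂ K]

def affineCoords (P : FF.Place ℂ K) (a : Fin 3 → K) : Set K :=
  {f | ∃ i j, a i ≠ 0 ∧ (∀ l, a l ≠ 0 → P.ord (a i) ≤ P.ord (a l)) ∧ f = a j / a i}

noncomputable def branchMult (P : FF.Place ℂ K) (b x : Fin 3 → K) : ℕ :=
  sInf {m : ℕ | 0 < m ∧ ∃ f ∈ affineCoords P b ∪ affineCoords P x, ∃ c : ℂ,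
    f - algebraMap ℂ K c ≠ 0 ∧ P.ord (f - algebraMap ℂ K c) = m}

variable (K) in
noncomputable def conormalNumber (b x : Fin 3 → K) : ℤ :=
  Pool.Agent.W603.LV.canDeg ℂ K - ∑ᶠ P : FF.Place ℂ K, ((branchMult P b x : ℤ) - 1)

noncomputable def tangentOrder (P : FF.Place ℂ K) (b x : Fin 3 → K) (D : Derivation ℂ K K) : ℤ :=
  sInf {m : ℤ | ∃ f ∈ affineCoords P b ∪ affineCoords P x, D f ≠ 0 ∧ P.ord (D f) = m}

noncomputable def conormalDegree (b x : Fin 3 → K) (D : Derivation ℂ K K) : ℤ :=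
  -∑ᶠ P : FF.Place ℂ K, tangentOrder P b x D

/-- the library place of a place -/
def toFF (P : Place K) : FF.Place ℂ K where
  ord := P.ord
  ord_zero := P.ord_zero
  ord_mul := P.ord_mul
  ord_add := P.ord_add
  ord_const := P.ord_const
  surj := P.surj

/-- places and library places are the same -/
def eqv : Place K ≃ FF.Place ℂ K where
  toFun := toFF
  invFun P := ⟨P.ord, P.ord_zero, P.ord_mul, P.ord_add, P.ord_const, P.surj⟩
  left_inv _ := rfl
  right_inv _ := rfl

lemma branchMult_eq (P : Place K) (b x : Fin 3 → K) :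
    CN.branchMult P b x = branchMult (eqv P) b x := rfl

lemma tangentOrder_eq (P : Place K) (b x : Fin 3 → K) (D : Derivation ℂ K K) :
    CN.tangentOrder P b x D = tangentOrder (eqv P) b x D := rfl

lemma vectorOrder_eq [FF.IsFF ℂ K] (P : Place K) {D : Derivation ℂ K K} (hD : D ≠ 0) :
    vectorOrder P D = Pool.Agent.W603.LV.vo (eqv P) D := by
  have h : {m : ℤ | ∃ t : K, P.ord t = 1 ∧ P.ord (D t) = m} =
      {Pool.Agent.W603.LV.vo (eqv P) D} := by
    ext m
    rw [Set.mem_singleton_iff]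
    constructor
    · rintro ⟨t, ht, rfl⟩
      exact Pool.Agent.W603.LV.vo_eq (eqv P) (π := t) ht hD
    · rintro rfl
      obtain ⟨t, -, ht⟩ := P.surj
      exact ⟨t, ht, Pool.Agent.W603.LV.vo_eq (eqv P) (π := t) ht hD⟩
  unfold vectorOrder
  rw [h, csInf_singleton]

theorem conormalNumber_eq' (b x : Fin 3 → K) (D : Derivation ℂ K K) :
    CN.conormalNumber b x D = conormalDegree b x D := by
  unfold CN.conormalNumber conormalDegree
  rw [← finsum_comp_equiv eqv]
  rfl

theorem indexNumber_eq [FF.IsFF ℂ K] (b x : Fin 3 → K) {D : Derivation ℂ K K} (hD : D ≠ 0) :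
    indexNumber b x D = conormalNumber K b x := by
  unfold indexNumber conormalNumber
  rw [Pool.Agent.W603.LV.canDeg_eq hD, ← finsum_comp_equiv eqv, ← finsum_comp_equiv eqv]
  congr 1
  congr 1
  exact finsum_congr fun P => vectorOrder_eq P hD

end Pool.Agent.TH144.CN.I
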