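import Pool.Agent.TH144.CN.Brody
import Pool.Agent.TH144.CN.Defs
import Pool.Agent.Helper206.Hyp

/-! From Brody's theorem to the Kobayashi pseudodistance. -/

set_option autoImplicit false

open Filter Topology Metric Set
open scoped LinearAlgebra.Projectivization
open Pool.Agent.Helper206 (mob mob_mem mob_zero mob_differentiableOn exists_mob_eq phd cost
  phd_le_cost phd_nonneg)

namespace Pool.Agent.TH144.CN

lemma HolP.comp {U U' : Set ℂ} {φ : ℂ → Mat} (h : HolP U φ) (hU' : IsOpen U') {m : ℂ → ℂ}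
    (hm : DifferentiableOn ℂ m U') (hmap : MapsTo m U' U) : HolP U' (fun z => φ (m z)) := by
  intro z hz
  obtain ⟨V, F, hV, hzV, hd, hF⟩ := h _ (hmap hz)
  refine ⟨U' ∩ m ⁻¹' V, fun w => F (m w), hm.continuousOn.isOpen_inter_preimage hU' hV, ⟨hz, hzV⟩,
    hd.comp (hm.mono inter_subset_left) (fun w hw => hw.2), fun w hw => hF _ hw.2⟩

/-- Lipschitz estimate for discs -/
theorem disc_lip {S : Set (Mat × Mat)} (hS : IsCompact S) {C : ℝ} (hC : 0 < C)
    (hb : ∀ Ψ, HolP2 (ball 0 1) Ψ → (∀ z ∈ ball (0 : ℂ) 1, Ψ z ∈ S) → ‖fderiv ℝ Ψ 0‖ ≤ C) :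
    ∃ L : ℝ, 0 < L ∧ ∀ Ψ, HolP2 (ball 0 1) Ψ → (∀ z ∈ ball (0 : ℂ) 1, Ψ z ∈ S) →
      ∀ s ∈ ball (0 : ℂ) 1, ∀ t ∈ ball (0 : ℂ) 1, dist (Ψ t) (Ψ s) ≤ L * cost s t := by
  obtain ⟨D, hD⟩ := hS.isBounded.exists_norm_le
  refine ⟨max (2 * C) (4 * max D 1), lt_max_of_lt_left (by positivity), fun Ψ hΨ hΨS s hs t ht => ?_⟩
  obtain ⟨ζ, hζ, hζn, hζt⟩ := exists_mob_eq hs ht
  have hmap : MapsTo (mob s) (ball 0 1) (ball 0 1) := fun z hz => mob_mem hs hz
  set h : ℂ → Mat × Mat := fun z => Ψ (mob s z) with hh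
  have hH : HolP2 (ball 0 1) h :=
    ⟨hΨ.1.comp isOpen_ball (mob_differentiableOn hs) hmap,
      hΨ.2.comp isOpen_ball (mob_differentiableOn hs) hmap⟩
  have hHS : ∀ z ∈ ball (0 : ℂ) 1, h z ∈ S := fun z hz => hΨS _ (hmap hz)
  have h0 : h 0 = Ψ s := by rw [hh]; simp only [mob_zero]
  have h1 : h ζ = Ψ t := by rw [hh]; simp only [hζt]
  rw [← h0, ← h1, dist_eq_norm]
  have hcost : ‖ζ‖ ≤ cost s t := by rw [hζn]; exact phd_le_cost hs ht
  suffices ‖h ζ - h 0‖ ≤ max (2 * C) (4 * max D 1) * ‖ζ‖ from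
    this.trans (mul_le_mul_of_nonneg_left hcost (le_max_of_le_left (by positivity)))
  rcases le_or_gt ‖ζ‖ (1 / 2) with hle | hgt
  · have hder : ∀ z ∈ closedBall (0 : ℂ) (1 / 2), ‖fderiv ℝ h z‖ ≤ 2 * C := by
      intro z hz
      have hz' : ‖z‖ ≤ 1 / 2 := mem_closedBall_zero_iff.1 hz
      have hz1 : z ∈ ball (0 : ℂ) 1 := mem_ball_zero_iff.2 (by linarith)
      have hsub : ball (0 : ℂ) 1 ⊆ aff z (1 / 2) ⁻¹' ball (0 : ℂ) 1 := by
        intro w hw
        rw [mem_preimage, mem_ball_zero_iff]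
        rw [mem_ball_zero_iff] at hw
        unfold aff
        refine lt_of_le_of_lt (norm_add_le _ _) ?_
        rw [norm_mul, Complex.norm_real, Real.norm_of_nonneg (by norm_num)]
        linarith
      have h2 := hb (fun w => h (aff z (1 / 2) w)) ((hH.aff z (1 / 2)).mono hsub)
        (fun w hw => hHS _ (hsub hw))
      have h3 : aff z (1 / 2) 0 = z := by simp [aff]
      rw [norm_fderiv_aff (by norm_num) (by rw [h3]; exact hH.differentiableAt hz1), h3] at h2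
      linarith
    have h4 := (convex_closedBall (0 : ℂ) (1 / 2)).norm_image_sub_le_of_norm_fderiv_le
      (fun x hx => hH.differentiableAt (closedBall_subset_ball (by norm_num) hx)) hder
      (mem_closedBall_self (by norm_num)) (mem_closedBall_zero_iff.2 hle)
    rw [sub_zero] at h4
    exact h4.trans (mul_le_mul_of_nonneg_right (le_max_left _ _) (norm_nonneg _))
  · have h2 := hD _ (hHS ζ hζ)
    have h3 := hD _ (hHS 0 (mem_ball_self one_pos))
    have h4 := norm_sub_le (h ζ) (h 0)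
    have h5 : D ≤ max D 1 := le_max_left _ _
    calc ‖h ζ - h 0‖ ≤ 2 * max D 1 := by linarith
      _ = 4 * max D 1 * (1 / 2) := by ring
      _ ≤ 4 * max D 1 * ‖ζ‖ := by
          apply mul_le_mul_of_nonneg_left hgt.le
          have : 1 ≤ max D 1 := le_max_right _ _
          linarith
      _ ≤ _ := mul_le_mul_of_nonneg_right (le_max_right _ _) (norm_nonneg _)

/-! ### points of `P² × P²` -/

/-- the pair of projection matrices of a point -/
noncomputable def PhiP (p : P2 × P2) : Mat × Mat := (Phi p.1.rep, Phi p.2.rep)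

lemma Phi_rep {b : Fin 3 → ℂ} (hb : b ≠ 0) : Phi (Projectivization.mk ℂ b hb).rep = Phi b := by
  obtain ⟨a, ha⟩ := Projectivization.exists_smul_eq_mk_rep ℂ b hb
  rw [← ha]
  exact Phi_smul a.ne_zero b

lemma PhiP_mk {b x : Fin 3 → ℂ} (hb : b ≠ 0) (hx : x ≠ 0) :
    PhiP (Projectivization.mk ℂ b hb, Projectivization.mk ℂ x hx) = (Phi b, Phi x) := by
  unfold PhiP
  simp only [Phi_rep]

lemma Phi_rep_inj {p q : P2} (h : Phi p.rep = Phi q.rep) : p = q := by
  obtain ⟨c, hc, hcq⟩ := Phi_inj p.rep_nonzero q.rep_nonzero h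
  rw [← p.mk_rep, ← q.mk_rep]
  rw [Projectivization.mk_eq_mk_iff']
  exact ⟨c⁻¹, by rw [hcq, smul_smul, inv_mul_cancel₀ hc, one_smul]⟩

lemma PhiP_inj {p q : P2 × P2} (h : PhiP p = PhiP q) : p = q := by
  unfold PhiP at h
  rw [Prod.mk.injEq] at h
  exact Prod.ext (Phi_rep_inj h.1) (Phi_rep_inj h.2)

lemma HolomorphicOn.holP2 {U : Set ℂ} {f : ℂ → P2 × P2} (h : HolomorphicOn U f) :
    HolP2 U (fun z => PhiP (f z)) := by
  constructor
  · intro z hz
    obtain ⟨V, b, x, hV, hzV, hb, hx, hf⟩ := h z hz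
    refine ⟨V, b, hV, hzV, hb, fun w hw => ?_⟩
    obtain ⟨hb0, hx0, e⟩ := hf w hw
    refine ⟨hb0, ?_⟩
    change (PhiP (f w)).1 = _
    rw [e, PhiP_mk]
  · intro z hz
    obtain ⟨V, b, x, hV, hzV, hb, hx, hf⟩ := h z hz
    refine ⟨V, x, hV, hzV, hx, fun w hw => ?_⟩
    obtain ⟨hb0, hx0, e⟩ := hf w hw
    refine ⟨hx0, ?_⟩
    change (PhiP (f w)).2 = _
    rw [e, PhiP_mk]

lemma cost_eq (s t : ℂ) : cost s t = poincareDist s t := rfl

/-- Lipschitz discs imply Kobayashi hyperbolicity -/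
theorem kobayashi_of_lip {S : Set (P2 × P2)} {L : ℝ} (hL : 0 < L)
    (h : ∀ f : ℂ → P2 × P2, HolomorphicOn (ball 0 1) f → (∀ z ∈ ball (0 : ℂ) 1, f z ∈ S) →
      ∀ s ∈ ball (0 : ℂ) 1, ∀ t ∈ ball (0 : ℂ) 1,
        dist (PhiP (f t)) (PhiP (f s)) ≤ L * poincareDist s t) :
    KobayashiHyperbolic S := by
  intro p _ q _ hpq
  have hd : 0 < dist (PhiP q) (PhiP p) := dist_pos.2 (fun h => hpq (PhiP_inj h).symm)
  refine lt_of_lt_of_le (ENNReal.ofReal_pos.2 (div_pos hd hL)) ?_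
  unfold kobayashi
  refine le_iInf₂ fun c hc => ?_
  apply ENNReal.ofReal_le_ofReal
  obtain ⟨k, r, f, s, t, h0, hl, hi, rfl⟩ := hc
  have h1 := Pool.Agent.Helper206.chain_bound k (fun j => PhiP (r j))
    (fun i => L * poincareDist (s i) (t i))
    (by
      intro i
      obtain ⟨-, -, hs, ht, -, -⟩ := hi i
      exact mul_nonneg hL.le ((phd_nonneg (s i) (t i)).trans (phd_le_cost hs ht)))
    (by
      intro i
      obtain ⟨hf, hfS, hs, ht, es, et⟩ := hi i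
      have := h (f i) hf hfS _ hs _ ht
      rwa [es, et] at this) (Fin.last k)
  simp only [h0, hl] at h1
  rw [← Finset.mul_sum] at h1
  rw [div_le_iff₀ hL]
  linarith

end Pool.Agent.TH144.CN
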