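import Pool.Agent.TH144.CN.Num

/-! The two descriptions of the conormal intersection number agree. -/

set_option autoImplicit false

open FF
open Pool.Agent.W603.LV

namespace Pool.Agent.TH144.CN.I

variable {K : Type} [Field K] [Algebra ℂ K] [IsFF ℂ K]

lemma zInf_eq_of {S : Set ℤ} {m : ℤ} (hm : m ∈ S) (h : ∀ n ∈ S, m ≤ n) : sInf S = m :=
  le_antisymm (csInf_le ⟨m, h⟩ hm) (le_csInf ⟨m, hm⟩ h)

omit [IsFF ℂ K] in
/-- affine coordinates are regular -/
lemma affine_reg {P : FF.Place ℂ K} {a : Fin 3 → K} {f : K} (hf : f ∈ affineCoords P a) : Ge P 0 f := by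
  obtain ⟨i, j, hi, hmin, rfl⟩ := hf
  by_cases hj : a j = 0
  · rw [hj, zero_div]; exact Ge.zero
  · right
    rw [P.ord_div hj hi]
    have := hmin j hj
    omega

/-- the local comparison: order of a vector field along the tangent line bundle -/
theorem tangentOrder_eq_add {P : FF.Place ℂ K} {b x : Fin 3 → K} {D : Derivation ℂ K K} (hD : D ≠ 0)
    (hne : ∃ f ∈ affineCoords P b ∪ affineCoords P x, Transcendental ℂ f) :
    tangentOrder P b x D = ((branchMult P b x : ℤ) - 1) + vo P D := by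
  set S : Set ℕ := {m : ℕ | 0 < m ∧ ∃ f ∈ affineCoords P b ∪ affineCoords P x,
    ∃ c : ℂ, f - algebraMap ℂ K c ≠ 0 ∧ P.ord (f - algebraMap ℂ K c) = m} with hS
  have hreg : ∀ f ∈ affineCoords P b ∪ affineCoords P x, Ge P 0 f := by
    rintro f (hf | hf)
    · exact affine_reg hf
    · exact affine_reg hf
  -- every nonconstant coordinate gives an element of `S`
  have hS1 : ∀ f ∈ affineCoords P b ∪ affineCoords P x, D f ≠ 0 →
      ∃ m ∈ S, P.ord (D f) = (m : ℤ) - 1 + vo P D := by
    intro f hf hDf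
    obtain ⟨c, hc⟩ := exists_const P (hreg f hf)
    have hne0 : f - algebraMap ℂ K c ≠ 0 := by
      intro h0
      apply hDf
      rw [sub_eq_zero.1 h0, Derivation.map_algebraMap]
    have hpos := hc.resolve_left hne0
    have h1 := (ord_der P hD (f := f - algebraMap ℂ K c) (by omega)).2
    rw [map_sub, Derivation.map_algebraMap, sub_zero] at h1
    refine ⟨(P.ord (f - algebraMap ℂ K c)).toNat, ⟨by omega, f, hf, c, hne0, by omega⟩, ?_⟩
    rw [h1]
    omega
  have hS2 : ∀ m ∈ S, ∃ f ∈ affineCoords P b ∪ affineCoords P x, D f ≠ 0 ∧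
      P.ord (D f) = (m : ℤ) - 1 + vo P D := by
    rintro m ⟨hm, f, hf, c, hfc, hord⟩
    have h1 := ord_der P hD (f := f - algebraMap ℂ K c) (by omega)
    rw [map_sub, Derivation.map_algebraMap, sub_zero, hord] at h1
    exact ⟨f, hf, h1.1, h1.2⟩
  have hSne : S.Nonempty := by
    obtain ⟨f, hf, hft⟩ := hne
    obtain ⟨m, hm, -⟩ := hS1 f hf (der_ne_zero hD hft)
    exact ⟨m, hm⟩
  have hmem : sInf S ∈ S := Nat.sInf_mem hSne
  unfold tangentOrder
  apply zInf_eq_of
  · obtain ⟨f, hf, h1, h2⟩ := hS2 _ hmem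
    exact ⟨f, hf, h1, h2⟩
  · rintro n ⟨f, hf, h1, rfl⟩
    obtain ⟨m, hm, h2⟩ := hS1 f hf h1
    rw [h2]
    have h3 : sInf S ≤ m := Nat.sInf_le hm
    have h4 : branchMult P b x = sInf S := rfl
    rw [h4]
    omega

omit [IsFF ℂ K] in
/-- at every place some affine coordinate is nonconstant -/
lemma exists_nonconst {b x : Fin 3 → K} (hx : x ≠ 0) (P : FF.Place ℂ K)
    (h : ∃ i j, x i ≠ 0 ∧ Transcendental ℂ (x j / x i)) :
    ∃ f ∈ affineCoords P b ∪ affineCoords P x, Transcendental ℂ f := by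
  classical
  obtain ⟨i0, hi0⟩ := Function.ne_iff.1 hx
  obtain ⟨i, hi, hmin⟩ := Finset.exists_min_image (Finset.univ.filter fun i => x i ≠ 0)
    (fun i => P.ord (x i)) ⟨i0, by simpa using hi0⟩
  have hi' : x i ≠ 0 := by simpa using hi
  have hmin' : ∀ l, x l ≠ 0 → P.ord (x i) ≤ P.ord (x l) := fun l hl => hmin l (by simpa using hl)
  by_contra hcon
  push Not at hcon
  have halg : ∀ j, IsAlgebraic ℂ (x j / x i) := fun j => by
    by_contra hj
    exact hj (not_not.1 (hcon _ (Or.inr ⟨i, j, hi', hmin', rfl⟩)))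
  obtain ⟨k, l, hk, hkl⟩ := h
  apply hkl
  have e : x l / x k = (x l / x i) / (x k / x i) := by field_simp
  rw [e, div_eq_mul_inv]
  exact (halg l).mul (halg k).inv

variable {u v : K} (huv : u ^ 16 + v ^ 16 + 1 = 0) (hv : Transcendental ℂ v)

include huv hv in
theorem conormalDegree_eq (ζ : ℂ) {D : Derivation ℂ K K} (hD : D ≠ 0) :
    conormalDegree (be K ζ) (xi u v) D = conormalNumber K (be K ζ) (xi u v) := by
  have hne : ∀ P : FF.Place ℂ K, ∃ f ∈ affineCoords P (be K ζ) ∪ affineCoords P (xi u v),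
      Transcendental ℂ f := by
    intro P
    refine exists_nonconst ?_ P ⟨0, 1, one_ne_zero, ?_⟩
    · intro h
      have := congrFun h 0
      simp [xi] at this
    · simpa [xi] using hv
  have h1 : ∀ P : FF.Place ℂ K, tangentOrder P (be K ζ) (xi u v) D =
      ((branchMult P (be K ζ) (xi u v) : ℤ) - 1) + vo P D := fun P => tangentOrder_eq_add hD (hne P)
  have hfin1 : (Function.support fun P : FF.Place ℂ K => vo P D).Finite := vo_finite hD
  have hfin2 := mult_finite huv hv ζ
  unfold conormalDegree conormalNumber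
  rw [canDeg_eq hD, finsum_congr h1, finsum_add_distrib hfin2 hfin1]
  ring

end Pool.Agent.TH144.CN.I
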