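import Pool.Agent.TH144.CN.Sm
import Pool.Agent.TH144.CN.Cur
import Pool.Agent.TH144.CN.Deg
import Pool.Agent.TH144.CN.Tan
import Pool.Agent.TH182.J244

/-! A Kobayashi hyperbolic surface with a curve of negative conormal intersection number. -/

set_option autoImplicit false

namespace Pool.Agent.TH144.CN

open Pool.Agent.TH144.CN.I (be xi finrank_eq natDegree_eq)

theorem main : ∃ X Z : ClosedSet, X.SmoothSurface ∧ X.Connected ∧ KobayashiHyperbolic X.points ∧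
    (∀ b x : Fin 3 → ℂ, Z.Mem b x → X.Mem b x) ∧
    ∃ (K : Type) (_ : Field K) (_ : Algebra ℂ K) (b x : Fin 3 → K),
      Z.FunctionField K b x ∧ Algebra.trdeg ℂ K = 1 ∧ (∃ D : Derivation ℂ K K, D ≠ 0) ∧
      ∀ D : Derivation ℂ K K, D ≠ 0 → indexNumber b x D = -16 ∧ conormalNumber b x D = -16 := by
  obtain ⟨γ, hγ⟩ := exists_good
  obtain ⟨ζ, hζ⟩ := IsAlgClosed.exists_pow_nat_eq (-1 : ℂ) (n := 4) (by norm_num)
  obtain ⟨K, hf, ha, u, v, huv, hv, hgen, hrel⟩ := Pool.Agent.TH182.J244.exists_fermat_field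
  have hFF : FF.IsFF ℂ K := I.isFF huv hv hgen
  have hnum : I.conormalNumber K (be K ζ) (xi u v) = -16 := by
    rw [I.conormalNumber_eq huv hv ζ, finrank_eq huv hgen, natDegree_eq huv hrel]
    norm_num
  refine ⟨Xs γ, Zs ζ, Xs_smooth hγ, Xs_connected hγ.ne, Xs_hyperbolic hγ.ne,
    fun b x h => Zs_sub hζ h, K, hf, ha, be K ζ, xi u v, functionField ζ huv hv hgen hrel,
    hFF.trdeg, ?_, fun D hD => ⟨(I.indexNumber_eq _ _ hD).trans hnum, ?_⟩⟩
  · exact ⟨Pool.Agent.W603.LV.der ℂ K, Pool.Agent.W603.LV.der_ne⟩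
  · rw [I.conormalNumber_eq', I.conormalDegree_eq huv hv ζ hD, hnum]

end Pool.Agent.TH144.CN
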