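import Pool.Agent.TH144.CN.Surf
import Pool.Agent.TH350.J243

/-! Smoothness and connectedness of the surface. -/

set_option autoImplicit false

open Filter Topology Metric Set
open MvPolynomial

namespace Pool.Agent.TH144.CN

/-- the choice of the constant `γ` -/
def Good (γ : ℂ) : Prop := 1 ≤ ‖γ‖ ∧ ∀ y : ℂ, 15 * y ^ 17 + 14 * y ^ 16 + 16 * y + 15 = 0 →
  1 + y ^ 16 + γ * (y ^ 15 * (1 + y)) ^ 16 ≠ 0

lemma exists_good : ∃ γ, Good γ := by
  set P : Polynomial ℂ := Polynomial.C 15 * Polynomial.X ^ 17 + Polynomial.C 14 * Polynomial.X ^ 16 +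
    Polynomial.C 16 * Polynomial.X + Polynomial.C 15 with hP
  have hP0 : P ≠ 0 := by
    intro h
    have := congrArg (Polynomial.eval 0) h
    rw [hP] at this
    simp at this
  have hfin : ((fun y : ℂ => -(1 + y ^ 16) / (y ^ 15 * (1 + y)) ^ 16) '' {y | P.IsRoot y}).Finite :=
    (Polynomial.finite_setOf_isRoot hP0).image _
  have hinf : (range fun n : ℕ => ((n : ℂ) + 1)).Infinite := by
    apply infinite_range_of_injective
    intro a b h
    simpa using h
  obtain ⟨γ, ⟨n, rfl⟩, hγ⟩ := hinf.exists_notMem_finite hfin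
  refine ⟨(n : ℂ) + 1, ?_, fun y hy h => ?_⟩
  · have : (n : ℂ) + 1 = ((n + 1 : ℕ) : ℂ) := by push_cast; rfl
    rw [this, Complex.norm_natCast]
    push_cast
    linarith [(Nat.cast_nonneg n : (0 : ℝ) ≤ n)]
  · apply hγ
    refine ⟨y, ?_, ?_⟩
    · change P.eval y = 0
      rw [hP]
      simp only [Polynomial.eval_add, Polynomial.eval_mul, Polynomial.eval_C, Polynomial.eval_pow,
        Polynomial.eval_X]
      exact hy
    · have hy0 : y ≠ 0 := by
        rintro rfl
        norm_num at hy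
      have hy1 : 1 + y ≠ 0 := by
        intro h1
        have h2 : y = -1 := by linear_combination h1
        rw [h2] at hy
        norm_num at hy
      have h2 : (y ^ 15 * (1 + y)) ^ 16 ≠ 0 := pow_ne_zero _ (mul_ne_zero (pow_ne_zero _ hy0) hy1)
      simp only
      rw [div_eq_iff h2]
      linear_combination -h

lemma Good.ne {γ : ℂ} (h : Good γ) : γ ≠ 0 := by
  rintro rfl
  have := h.1
  rw [norm_zero] at this
  linarith

/-- the two curves spanning the pencil meet transversally -/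
lemma transversal {γ : ℂ} (hγ : Good γ) {x y z s t : ℂ} (h0 : ¬ (x = 0 ∧ y = 0 ∧ z = 0))
    (hA : x ^ 240 * z ^ 16 + y ^ 256 + x ^ 16 * y ^ 240 = 0)
    (hG : x ^ 256 + y ^ 256 + γ * z ^ 256 = 0)
    (e0 : s * (15 * (x ^ 240 * z ^ 16) + x ^ 16 * y ^ 240) + 16 * t * x ^ 256 = 0)
    (e1 : s * (16 * y ^ 256 + 15 * (x ^ 16 * y ^ 240)) + 16 * t * y ^ 256 = 0) :
    s = 0 ∧ t = 0 := by
  have hγ0 := hγ.ne
  have hx : x ≠ 0 := by
    rintro rfl
    have hy : y = 0 := by
      have : y ^ 256 = 0 := by simpa using hA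
      exact pow_eq_zero_iff (by norm_num) |>.1 this
    subst hy
    have hz : z = 0 := by
      have : γ * z ^ 256 = 0 := by simpa using hG
      exact pow_eq_zero_iff (by norm_num) |>.1 ((mul_eq_zero.1 this).resolve_left hγ0)
    exact h0 ⟨rfl, rfl, hz⟩
  have hy : y ≠ 0 := by
    rintro rfl
    have hz : z = 0 := by
      have : x ^ 240 * z ^ 16 = 0 := by simpa using hA
      exact pow_eq_zero_iff (by norm_num) |>.1 ((mul_eq_zero.1 this).resolve_left (pow_ne_zero _ hx))
    subst hz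
    have : x ^ 256 = 0 := by simpa using hG
    exact hx (pow_eq_zero_iff (by norm_num) |>.1 this)
  set a := x ^ 16 with ha
  set c := y ^ 16 with hc
  set e := z ^ 16 with he
  have ha0 : a ≠ 0 := pow_ne_zero _ hx
  have hc0 : c ≠ 0 := pow_ne_zero _ hy
  have x240 : x ^ 240 = a ^ 15 := by rw [ha, ← pow_mul]
  have x256 : x ^ 256 = a ^ 16 := by rw [ha, ← pow_mul]
  have y240 : y ^ 240 = c ^ 15 := by rw [hc, ← pow_mul]
  have y256 : y ^ 256 = c ^ 16 := by rw [hc, ← pow_mul]
  have z256 : z ^ 256 = e ^ 16 := by rw [he, ← pow_mul]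
  rw [x240, y240, y256] at hA
  rw [x256, y256, z256] at hG
  rw [x240, y240, x256] at e0
  rw [y240, y256] at e1
  have hs : s = 0 := by
    by_contra hs
    have h1 : (15 * (a ^ 15 * e) + a * c ^ 15) * c ^ 16 = (16 * c ^ 16 + 15 * (a * c ^ 15)) * a ^ 16 := by
      apply mul_left_cancel₀ hs
      linear_combination c ^ 16 * e0 - a ^ 16 * e1
    have h2 : a ^ 15 * e = - (c ^ 16 + a * c ^ 15) := by linear_combination hA
    set w := c / a with hw
    have hcw : c = w * a := by rw [hw]; field_simp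
    have hroot : 15 * w ^ 17 + 14 * w ^ 16 + 16 * w + 15 = 0 := by
      have h3 : a ^ 32 * w ^ 15 * (15 * w ^ 17 + 14 * w ^ 16 + 16 * w + 15) = 0 := by
        rw [h2, hcw] at h1
        linear_combination -h1
      have hw0 : w ≠ 0 := div_ne_zero hc0 ha0
      exact (mul_eq_zero.1 h3).resolve_left (mul_ne_zero (pow_ne_zero _ ha0) (pow_ne_zero _ hw0))
    apply hγ.2 w hroot
    have h4 : e = -(w ^ 15 * (1 + w)) * a := by
      apply mul_left_cancel₀ (pow_ne_zero 15 ha0)
      rw [h2, hcw]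
      ring
    rw [h4, hcw] at hG
    have h5 : a ^ 16 * (1 + w ^ 16 + γ * (w ^ 15 * (1 + w)) ^ 16) = 0 := by
      linear_combination hG
    exact (mul_eq_zero.1 h5).resolve_left (pow_ne_zero _ ha0)
  refine ⟨hs, ?_⟩
  rw [hs] at e0
  have h6 : t * a ^ 16 = 0 := by linear_combination e0 / 16
  exact (mul_eq_zero.1 h6).resolve_right (pow_ne_zero _ ha0)

/-- the members over the branch points are smooth -/
lemma member_smooth {γ : ℂ} (hγ : 1 ≤ ‖γ‖) {x : Fin 3 → ℂ} (hx : x ≠ 0) {s t : ℂ}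
    (hs : s ≠ 0) (hst : ‖t‖ = ‖s‖)
    (e0 : s * (15 * (x 0 ^ 240 * x 2 ^ 16) + x 0 ^ 16 * x 1 ^ 240) + 32 * t * x 0 ^ 256 = 0)
    (e1 : s * (16 * x 1 ^ 256 + 15 * (x 0 ^ 16 * x 1 ^ 240)) + 32 * t * x 1 ^ 256 = 0)
    (e2 : s * (x 0 ^ 240 * x 2 ^ 16) + 32 * t * (γ * x 2 ^ 256) = 0) : False := by
  have hm : 0 < ‖x‖ := norm_pos_iff.2 hx
  set m := ‖x‖ with hmdef
  have hle : ∀ i, ‖x i‖ ≤ m := fun i => norm_le_pi_norm x i
  obtain ⟨i, hi⟩ : ∃ i, ‖x i‖ = m := by
    by_contra hcon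
    push Not at hcon
    have : ‖x‖ < m := (pi_norm_lt_iff hm).2 fun i => lt_of_le_of_ne (hle i) (hcon i)
    exact lt_irrefl _ this
  have hρ : 0 < ‖s‖ := norm_pos_iff.2 hs
  set ρ := ‖s‖ with hρdef
  have hM : 0 < m ^ 256 := by positivity
  have hU : ‖x 0 ^ 240 * x 2 ^ 16‖ ≤ m ^ 256 := by
    rw [norm_mul, norm_pow, norm_pow]
    calc ‖x 0‖ ^ 240 * ‖x 2‖ ^ 16 ≤ m ^ 240 * m ^ 16 := by
          gcongr
          · exact hle 0
          · exact hle 2
      _ = m ^ 256 := by ring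
  have hW : ‖x 0 ^ 16 * x 1 ^ 240‖ ≤ m ^ 256 := by
    rw [norm_mul, norm_pow, norm_pow]
    calc ‖x 0‖ ^ 16 * ‖x 1‖ ^ 240 ≤ m ^ 16 * m ^ 240 :=
          mul_le_mul (pow_le_pow_left₀ (norm_nonneg _) (hle 0) 16)
            (pow_le_pow_left₀ (norm_nonneg _) (hle 1) 240) (pow_nonneg (norm_nonneg _) _)
            (pow_nonneg hm.le _)
      _ = m ^ 256 := by ring
  fin_cases i
  · simp only [Fin.zero_eta, Fin.isValue] at hi
    have h1 : ‖32 * t * x 0 ^ 256‖ = ‖s * (15 * (x 0 ^ 240 * x 2 ^ 16) + x 0 ^ 16 * x 1 ^ 240)‖ := by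
      rw [← norm_neg (s * _)]
      congr 1
      linear_combination e0
    have h2 : ‖32 * t * x 0 ^ 256‖ = 32 * ρ * m ^ 256 := by
      rw [norm_mul, norm_mul, norm_pow, hi, hst]; norm_num
    have h3 : ‖s * (15 * (x 0 ^ 240 * x 2 ^ 16) + x 0 ^ 16 * x 1 ^ 240)‖ ≤
        ρ * (15 * m ^ 256 + m ^ 256) := by
      rw [norm_mul]
      gcongr
      refine (norm_add_le _ _).trans (add_le_add ?_ hW)
      rw [norm_mul]
      norm_num
      simpa using hU
    rw [← h1, h2] at h3
    nlinarith [mul_pos hρ hM]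
  · simp only [Fin.mk_one, Fin.isValue] at hi
    have h1 : ‖(16 * s + 32 * t) * x 1 ^ 256‖ = ‖s * (15 * (x 0 ^ 16 * x 1 ^ 240))‖ := by
      rw [← norm_neg (s * _)]
      congr 1
      linear_combination e1
    have h2 : 16 * ρ ≤ ‖16 * s + 32 * t‖ := by
      have h4 : ‖(32 : ℂ) * t‖ = 32 * ρ := by rw [norm_mul, hst]; norm_num
      have h5 : ‖(16 : ℂ) * s‖ = 16 * ρ := by rw [norm_mul, ← hρdef]; norm_num
      have h6 := norm_sub_norm_le ((32 : ℂ) * t) (-((16 : ℂ) * s))
      rw [norm_neg, h4, h5, sub_neg_eq_add, add_comm (32 * t)] at h6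
      linarith
    have h3 : ‖s * (15 * (x 0 ^ 16 * x 1 ^ 240))‖ ≤ ρ * (15 * m ^ 256) := by
      rw [norm_mul, norm_mul]
      gcongr
      · norm_num
    rw [← h1, norm_mul, norm_pow, hi] at h3
    have h7 : 16 * ρ * m ^ 256 ≤ ρ * (15 * m ^ 256) :=
      (mul_le_mul_of_nonneg_right h2 hM.le).trans h3
    nlinarith [mul_pos hρ hM]
  · simp only [Fin.reduceFinMk, Fin.isValue] at hi
    have h1 : ‖32 * t * (γ * x 2 ^ 256)‖ = ‖s * (x 0 ^ 240 * x 2 ^ 16)‖ := by
      rw [← norm_neg (s * _)]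
      congr 1
      linear_combination e2
    have h2 : 32 * ρ * m ^ 256 ≤ ‖32 * t * (γ * x 2 ^ 256)‖ := by
      rw [norm_mul, norm_mul, norm_mul, norm_pow, hi, hst]
      have h4 : m ^ 256 ≤ ‖γ‖ * m ^ 256 := le_mul_of_one_le_left hM.le hγ
      have h5 : ‖(32 : ℂ)‖ = 32 := by norm_num
      rw [h5]
      exact mul_le_mul_of_nonneg_left h4 (by positivity)
    have h3 : ‖s * (x 0 ^ 240 * x 2 ^ 16)‖ ≤ ρ * m ^ 256 := by
      rw [norm_mul]
      gcongr
    rw [h1] at h2
    nlinarith [mul_pos hρ hM]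

open ClosedSet in
theorem Xs_smooth {γ : ℂ} (hγ : Good γ) : (Xs γ).SmoothSurface := by
  refine ⟨Ep, Fp γ, rfl, fun b x h => ?_⟩
  obtain ⟨hb, hx, hE, hF⟩ := mem_Xs.1 h
  rw [LinearIndependent.pair_iff]
  intro s t hst
  have k0 := congrFun hst (Sum.inl 0)
  have k1 := congrFun hst (Sum.inl 1)
  have k2 := congrFun hst (Sum.inl 2)
  have l0 := congrFun hst (Sum.inr 0)
  have l1 := congrFun hst (Sum.inr 1)
  have l2 := congrFun hst (Sum.inr 2)
  simp [Ep, Fp, Ap, Gp, B, Y, pderiv_X] at k0 k1 k2 l0 l1 l2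
  have ht : t = 0 := by
    by_contra ht
    have l0' := l0.resolve_left ht
    have l1' := l1.resolve_left ht
    have l2' := l2.resolve_left ht
    by_cases hb2 : b 2 = 0
    · -- a member over a branch point
      rw [hb2] at hE
      have hb0 : b 0 ≠ 0 := by
        intro h0
        rw [h0] at hE
        have h1 : b 1 = 0 := by simpa using hE
        apply hb
        funext i
        fin_cases i
        · exact h0
        · exact h1
        · exact hb2
      have hnorm : ‖b 1‖ = ‖b 0‖ := by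
        have h1 : b 1 ^ 4 = -(b 0 ^ 4) := by linear_combination hE
        have h2 := congrArg norm h1
        rw [norm_neg, norm_pow, norm_pow] at h2
        exact (pow_left_inj₀ (norm_nonneg _) (norm_nonneg _) (by norm_num)).1 h2
      refine member_smooth hγ.1 hx hb0 hnorm ?_ ?_ ?_
      · linear_combination x 0 / 16 * l0'
      · linear_combination x 1 / 16 * l1'
      · linear_combination x 2 / 16 * l2'
    · have hs : s = 0 := k2.resolve_right hb2
      rw [hs] at k0 k1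
      have hA : x 0 ^ 240 * x 2 ^ 16 + x 1 ^ 256 + x 0 ^ 16 * x 1 ^ 240 = 0 := by
        have : t * (x 0 ^ 240 * x 2 ^ 16 + x 1 ^ 256 + x 0 ^ 16 * x 1 ^ 240) = 0 := by
          linear_combination k0
        exact (mul_eq_zero.1 this).resolve_left ht
      have hG : x 0 ^ 256 + x 1 ^ 256 + γ * x 2 ^ 256 = 0 := by
        have : t * (x 0 ^ 256 + x 1 ^ 256 + γ * x 2 ^ 256) = 0 := by
          linear_combination k1 / 2
        exact (mul_eq_zero.1 this).resolve_left ht
      have h0 : ¬ (x 0 = 0 ∧ x 1 = 0 ∧ x 2 = 0) := by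
        rintro ⟨h0, h1, h2⟩
        apply hx
        funext i
        fin_cases i
        · exact h0
        · exact h1
        · exact h2
      obtain ⟨h1, h2⟩ := transversal hγ (s := b 0) (t := 2 * b 1) h0 hA hG
        (by linear_combination x 0 / 16 * l0') (by linear_combination x 1 / 16 * l1')
      have h3 : b 1 = 0 := by simpa using h2
      rw [h1, h3] at hE
      exact hb2 (by simpa using hE)
  refine ⟨?_, ht⟩
  by_contra hs
  rw [ht] at k0 k1
  have h0 : b 0 = 0 := by simpa [hs] using k0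
  have h1 : b 1 = 0 := by simpa [hs] using k1
  have h2 : b 2 = 0 := k2.resolve_left hs
  apply hb
  funext i
  fin_cases i
  · exact h0
  · exact h1
  · exact h2

theorem Xs_connected {γ : ℂ} (hγ : γ ≠ 0) : (Xs γ).Connected := by
  unfold ClosedSet.Connected
  have h := Pool.Agent.TH350.J243.connected_cone Af_cont (Gf_cont γ) Af_smul (Gf_smul γ) (by
    obtain ⟨ω, hω⟩ := IsAlgClosed.exists_pow_nat_eq (-1 : ℂ) (n := 4) (by norm_num)
    have hω2 : 1 + 2 * ω ≠ 0 := by
      intro h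
      have h1 : ω = -1 / 2 := by linear_combination h / 2
      rw [h1] at hω
      norm_num at hω
    obtain ⟨y, hy⟩ := IsAlgClosed.exists_pow_nat_eq (-(2 * ω * γ) / (1 + 2 * ω)) (n := 256)
      (by norm_num)
    refine ⟨![0, y, 1], ω, ?_, hω, ?_⟩
    · intro h
      have := congrFun h 2
      simp at this
    · have h1 : Af ![0, y, 1] = y ^ 256 := by simp [Af]
      have h2 : Gf γ ![0, y, 1] = y ^ 256 + γ := by simp [Gf]
      rw [h1, h2, hy]
      field_simp
      ring)
  convert h using 2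
  ext p
  exact mem_Xs

end Pool.Agent.TH144.CN
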